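import Pool.Agent.Y882.PX.Four

/-! Bounds for the number of the solutions of polynomial congruences. -/

set_option autoImplicit false

namespace Pool.Agent.Y882.PX

open Finset Polynomial
open H343 (ex)
open Pool.Agent.H300R2.BH (rho)
open Pool.Agent.H475R2.BH

/-- the bound for the number of the roots modulo primes -/
noncomputable def KF (F : ℤ[X]) : ℕ := max F.natDegree F.leadingCoeff.natAbs

theorem ro_le_self (F : ℤ[X]) (k : ℤ) (q : ℕ) : ro F k q ≤ q := by
  rw [ro_eq]
  refine (card_filter_le _ _).trans ?_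
  rw [card_range]

theorem ro_le (F : ℤ[X]) (hF : 1 ≤ F.natDegree) (k : ℤ) (p : ℕ) (hp : p.Prime) :
    ro F k p ≤ KF F := by
  have hF0 : F ≠ 0 := by rintro rfl; simp at hF
  have : Fact p.Prime := ⟨hp⟩
  by_cases h : (p : ℤ) ∣ F.leadingCoeff
  · refine (ro_le_self F k p).trans (le_trans ?_ (le_max_right _ _))
    apply Nat.le_of_dvd
    · exact Int.natAbs_pos.2 (leadingCoeff_ne_zero.2 hF0)
    · exact Int.natCast_dvd.1 h
  · refine le_trans ?_ (le_max_left _ _)
    unfold ro
    rw [rho_eq_rz _ _ hp.one_le]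
    unfold rz
    set G : (ZMod p)[X] := (F + C k).map (Int.castRingHom (ZMod p)) with hG
    have h1 : G.coeff F.natDegree = ((F.leadingCoeff : ℤ) : ZMod p) := by
      rw [hG, coeff_map, coeff_add, coeff_C, if_neg (by omega), add_zero]
      rfl
    have h2 : G ≠ 0 := by
      intro h3
      rw [h3, coeff_zero] at h1
      exact h ((ZMod.intCast_zmod_eq_zero_iff_dvd _ _).1 h1.symm)
    have h3 : G.natDegree ≤ F.natDegree := by
      refine (natDegree_map_le).trans ?_
      refine (natDegree_add_le _ _).trans ?_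
      rw [natDegree_C]
      simp
    refine le_trans ?_ h3
    refine le_trans ?_ (card_roots' G)
    refine le_trans ?_ (Multiset.toFinset_card_le _)
    rw [Nat.card_eq_fintype_card, Fintype.card_subtype]
    apply card_le_card
    intro x hx
    rw [mem_filter] at hx
    rw [Multiset.mem_toFinset, mem_roots h2]
    exact hx.2

theorem ro_prod (F : ℤ[X]) (k : ℤ) (T : Finset ℕ) (hT : ∀ p ∈ T, p.Prime) :
    ro F k (∏ p ∈ T, p) = ∏ p ∈ T, ro F k p := by
  classical
  induction T using Finset.induction_on with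
  | empty => simp [ro, rho_one]
  | insert a s ha ih =>
    rw [prod_insert ha, prod_insert ha]
    have h1 : ro F k (a * ∏ p ∈ s, p) = ro F k a * ro F k (∏ p ∈ s, p) := by
      unfold ro
      apply rho_mul
      · exact (hT a (mem_insert_self _ _)).one_le
      · exact Nat.pos_of_ne_zero (prod_ne_zero_iff.2 fun p hp =>
          (hT p (mem_insert_of_mem hp)).ne_zero)
      · apply Nat.Coprime.prod_right
        intro p hp
        rw [Nat.coprime_primes (hT a (mem_insert_self _ _)) (hT p (mem_insert_of_mem hp))]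
        rintro rfl
        exact ha hp
    rw [h1, ih (fun p hp => hT p (mem_insert_of_mem hp))]

/-- powers of a constant to the number of the prime factors -/
theorem pow_card_le (K : ℕ) (η : ℝ) (hη : 0 < η) : ∃ C : ℝ, 1 ≤ C ∧ ∀ T : Finset ℕ,
    (∀ p ∈ T, p.Prime) → (K : ℝ) ^ T.card ≤ C * ((∏ p ∈ T, p : ℕ) : ℝ) ^ η := by
  obtain ⟨B, hB⟩ := exists_nat_ge (((K : ℝ) + 1) ^ (1 / η))
  refine ⟨((K : ℝ) + 1) ^ B, one_le_pow₀ (by linarith [(Nat.cast_nonneg K : (0 : ℝ) ≤ K)]), ?_⟩
  intro T hT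
  have hK : (0 : ℝ) ≤ K := Nat.cast_nonneg K
  calc (K : ℝ) ^ T.card ≤ ((K : ℝ) + 1) ^ T.card := pow_le_pow_left₀ hK (by linarith) _
    _ = ∏ p ∈ T, ((K : ℝ) + 1) := by rw [prod_const]
    _ ≤ ∏ p ∈ T, ((if p < B then ((K : ℝ) + 1) else 1) * (p : ℝ) ^ η) := by
        apply prod_le_prod
        · intro p _; linarith
        · intro p hp
          have h1 : (1 : ℝ) ≤ p := by exact_mod_cast (hT p hp).one_le
          split_ifs with h
          · have h2 : (1 : ℝ) ≤ (p : ℝ) ^ η := Real.one_le_rpow h1 hη.le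
            nlinarith
          · rw [one_mul]
            have h2 : ((K : ℝ) + 1) ^ (1 / η) ≤ p := hB.trans (by exact_mod_cast not_lt.1 h)
            calc (K : ℝ) + 1 = (((K : ℝ) + 1) ^ (1 / η)) ^ η := by
                  rw [← Real.rpow_mul (by linarith), one_div, inv_mul_cancel₀ hη.ne',
                    Real.rpow_one]
              _ ≤ (p : ℝ) ^ η := Real.rpow_le_rpow (by positivity) h2 hη.le
    _ = (∏ p ∈ T, (if p < B then ((K : ℝ) + 1) else 1)) * ∏ p ∈ T, (p : ℝ) ^ η :=
        prod_mul_distrib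
    _ ≤ ((K : ℝ) + 1) ^ B * ((∏ p ∈ T, p : ℕ) : ℝ) ^ η := by
        push_cast
        rw [Real.finsetProd_rpow _ _ (fun p _ => by positivity)]
        apply mul_le_mul_of_nonneg_right _ (by positivity)
        rw [← prod_filter, prod_const]
        apply pow_le_pow_right₀ (by linarith)
        calc (T.filter (fun p => p < B)).card ≤ (range B).card := by
              apply card_le_card
              intro p hp
              rw [mem_filter] at hp
              exact mem_range.2 hp.2
          _ = B := card_range B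

theorem ro_le_pow (F : ℤ[X]) (hF : 1 ≤ F.natDegree) (k : ℤ) (T : Finset ℕ)
    (hT : ∀ p ∈ T, p.Prime) : (ro F k (∏ p ∈ T, p) : ℝ) ≤ (KF F : ℝ) ^ T.card := by
  rw [ro_prod F k T hT]
  push_cast
  calc ∏ p ∈ T, (ro F k p : ℝ) ≤ ∏ p ∈ T, (KF F : ℝ) := by
        apply prod_le_prod
        · intro p _; positivity
        · intro p hp
          exact_mod_cast ro_le F hF k p (hT p hp)
    _ = _ := by rw [prod_const]

/-- number of `n < N` with `q ∣ F(n) + k`: trivial bounds -/
theorem cnt_le (F : ℤ[X]) (k : ℤ) (q X : ℕ) (hq : 0 < q) :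
    |rr F k q X| ≤ ro F k q + 1 := by
  set c : ℕ → ℕ := fun N => ((range N).filter (fun n : ℕ => (q : ℤ) ∣ (F + C k).eval (n : ℤ))).card
    with hc
  have hmono : ∀ a b : ℕ, a ≤ b → c a ≤ c b := by
    intro a b hab
    apply card_le_card
    apply filter_subset_filter
    exact range_mono hab
  have hmul : ∀ t, c (q * t) = t * ro F k q := fun t => count_mul (F + C k) q t
  set t : ℕ := X / q with ht
  have h1 : q * t ≤ X := Nat.mul_div_le X q
  have h2 : X + 1 ≤ q * (t + 1) := Nat.lt_mul_div_succ X hq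
  have h3 := hmono (q * t) (X + 1) (by omega)
  have h4 := hmono (X + 1) (q * (t + 1)) h2
  rw [hmul] at h3 h4
  have h5 : c (X + 1) ≤ cnt F k q X + 1 ∧ cnt F k q X ≤ c (X + 1) := by
    have e : range (X + 1) = insert 0 (Icc 1 X) := by
      ext n
      rw [mem_insert, mem_Icc, mem_range]
      omega
    constructor
    · simp only [hc]
      rw [e]
      unfold cnt
      refine (card_le_card (t := insert 0 ((Icc 1 X).filter
        (fun n : ℕ => (q : ℤ) ∣ F.eval (n : ℤ) + k))) ?_).trans (card_insert_le _ _)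
      intro n hn
      rw [mem_filter, mem_insert] at hn
      rw [mem_insert, mem_filter]
      rcases hn.1 with h | h
      · left; exact h
      · right
        refine ⟨h, ?_⟩
        have := hn.2
        rwa [eval_add, eval_C] at this
    · simp only [hc]
      unfold cnt
      apply card_le_card
      intro n hn
      rw [mem_filter, mem_Icc] at hn
      rw [mem_filter, mem_range, eval_add, eval_C]
      exact ⟨by omega, hn.2⟩
  have h6 : (t : ℝ) * ro F k q ≤ c (X + 1) := by exact_mod_cast h3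
  have h7 : (c (X + 1) : ℝ) ≤ ((t : ℝ) + 1) * ro F k q := by exact_mod_cast h4
  have h8 : (c (X + 1) : ℝ) ≤ cnt F k q X + 1 := by exact_mod_cast h5.1
  have h9 : (cnt F k q X : ℝ) ≤ c (X + 1) := by exact_mod_cast h5.2
  have hqr : (0 : ℝ) < q := by exact_mod_cast hq
  have h10 : (t : ℝ) ≤ X / q := Nat.cast_div_le
  have h11 : (X : ℝ) / q ≤ t + 1 := by
    rw [div_le_iff₀ hqr]
    have : (X : ℝ) + 1 ≤ q * (t + 1) := by exact_mod_cast h2
    linarith
  have h12 : (0 : ℝ) ≤ ro F k q := Nat.cast_nonneg _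
  unfold rr
  rw [abs_le]
  constructor
  · nlinarith
  · nlinarith

theorem sum_ro (F : ℤ[X]) (q : ℕ) (hq : 0 < q) : ∑ k ∈ range q, ro F (k : ℤ) q = q := by
  simp_rw [ro_eq, card_filter]
  rw [sum_comm]
  have h1 : ∀ n ∈ range q, ∑ k ∈ range q, (if (q : ℤ) ∣ F.eval (n : ℤ) + (k : ℕ) then 1 else 0) = 1 := by
    intro n _
    rw [← card_filter, card_eq_one]
    refine ⟨((-F.eval (n : ℤ)) % q).toNat, ?_⟩
    have h0 : 0 ≤ (-F.eval (n : ℤ)) % q := Int.emod_nonneg _ (by omega)
    have h0' : (-F.eval (n : ℤ)) % q < q := Int.emod_lt_of_pos _ (by omega)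
    ext k
    rw [mem_filter, mem_singleton, mem_range]
    constructor
    · rintro ⟨h2, h3⟩
      have h4 : (k : ℤ) ≡ -F.eval (n : ℤ) [ZMOD q] := by
        refine (Int.modEq_iff_dvd.2 ?_)
        rw [show -F.eval (n : ℤ) - (k : ℤ) = -(F.eval (n : ℤ) + k) by ring]
        exact (dvd_neg.2 h3)
      have h5 : (k : ℤ) % q = (-F.eval (n : ℤ)) % q := h4
      rw [Int.emod_eq_of_lt (by omega) (by omega)] at h5
      omega
    · intro h2
      subst h2
      refine ⟨by omega, ?_⟩
      rw [Int.toNat_of_nonneg h0]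
      have := Int.emod_emod_of_dvd (-F.eval (n : ℤ)) (dvd_refl (q : ℤ))
      have h3 : (-F.eval (n : ℤ)) % q = -F.eval (n : ℤ) - q * ((-F.eval (n : ℤ)) / q) := by
        rw [Int.emod_def]
      rw [h3]
      exact ⟨-((-F.eval (n : ℤ)) / q), by ring⟩
  rw [sum_congr rfl h1]
  simp

theorem sum_cnt (F : ℤ[X]) (q X : ℕ) (hq : 0 < q) : ∑ k ∈ range q, cnt F (k : ℤ) q X = X := by
  unfold cnt
  simp_rw [card_filter]
  rw [sum_comm]
  have h1 : ∀ n ∈ Icc 1 X, ∑ k ∈ range q, (if (q : ℤ) ∣ F.eval (n : ℤ) + (k : ℕ) then 1 else 0) = 1 := by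
    intro n _
    rw [← card_filter, card_eq_one]
    refine ⟨((-F.eval (n : ℤ)) % q).toNat, ?_⟩
    have h0 : 0 ≤ (-F.eval (n : ℤ)) % q := Int.emod_nonneg _ (by omega)
    have h0' : (-F.eval (n : ℤ)) % q < q := Int.emod_lt_of_pos _ (by omega)
    ext k
    rw [mem_filter, mem_singleton, mem_range]
    constructor
    · rintro ⟨h2, h3⟩
      have h4 : (k : ℤ) ≡ -F.eval (n : ℤ) [ZMOD q] := by
        refine (Int.modEq_iff_dvd.2 ?_)
        rw [show -F.eval (n : ℤ) - (k : ℤ) = -(F.eval (n : ℤ) + k) by ring]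
        exact (dvd_neg.2 h3)
      have h5 : (k : ℤ) % q = (-F.eval (n : ℤ)) % q := h4
      rw [Int.emod_eq_of_lt (by omega) (by omega)] at h5
      omega
    · intro h2
      subst h2
      refine ⟨by omega, ?_⟩
      rw [Int.toNat_of_nonneg h0]
      have h3 : (-F.eval (n : ℤ)) % q = -F.eval (n : ℤ) - q * ((-F.eval (n : ℤ)) / q) := by
        rw [Int.emod_def]
      rw [h3]
      exact ⟨-((-F.eval (n : ℤ)) / q), by ring⟩
  rw [sum_congr rfl h1]
  simp

/-- mean square of the error terms over the residue classes -/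
theorem sum_rr_sq (F : ℤ[X]) (q X : ℕ) (hq : 0 < q) (B : ℝ) (hB : ∀ k : ℤ, (ro F k q : ℝ) ≤ B) :
    ∑ k ∈ range q, rr F (k : ℤ) q X ^ 2 ≤ 2 * (B + 1) * X := by
  have hqr : (0 : ℝ) < q := by exact_mod_cast hq
  have hB0 : 0 ≤ B := le_trans (Nat.cast_nonneg _) (hB 0)
  calc ∑ k ∈ range q, rr F (k : ℤ) q X ^ 2
      ≤ ∑ k ∈ range q, (B + 1) * ((cnt F (k : ℤ) q X : ℝ) + (X : ℝ) / q * ro F (k : ℤ) q) := by
        apply sum_le_sum
        intro k _
        have h1 := cnt_le F k q X hq
        have h2 : |rr F k q X| ≤ B + 1 := h1.trans (by linarith [hB k])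
        have h3 : |rr F k q X| ≤ (cnt F (k : ℤ) q X : ℝ) + (X : ℝ) / q * ro F (k : ℤ) q := by
          unfold rr
          refine (abs_sub _ _).trans ?_
          rw [abs_of_nonneg (by positivity), abs_of_nonneg (by positivity)]
        rw [← sq_abs, sq]
        exact mul_le_mul h2 h3 (abs_nonneg _) (by linarith)
    _ = 2 * (B + 1) * X := by
        rw [← mul_sum, sum_add_distrib, ← mul_sum]
        have h1 : ∑ k ∈ range q, (cnt F (k : ℤ) q X : ℝ) = X := by exact_mod_cast sum_cnt F q X hq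
        have h2 : ∑ k ∈ range q, (ro F (k : ℤ) q : ℝ) = q := by exact_mod_cast sum_ro F q hq
        rw [h1, h2]
        field_simp
        ring

end Pool.Agent.Y882.PX
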