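import Pool.Agent.Y882.PX.LowX

/-! Almost prime values of polynomials, for all but few constant terms. -/

set_option autoImplicit false

namespace Pool.Agent.Y882.PX

open Finset Polynomial Filter
open Pool.Agent.W23.DC

open Classical in
/-- the numbers `n ≤ X` such that `|F(n) + k| > 1` and all prime factors of `F(n) + k` exceed `X ^ v` -/
noncomputable def good (F : ℤ[X]) (k : ℤ) (X : ℕ) (v : ℝ) : Finset ℕ :=
  (Icc 1 X).filter (fun n : ℕ => 1 < |F.eval (n : ℤ) + k| ∧
    ∀ p : ℕ, p.Prime → (p : ℤ) ∣ F.eval (n : ℤ) + k → (X : ℝ) ^ v < p)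

/-- the product of the local factors -/
noncomputable def loc (F : ℤ[X]) (k : ℤ) (X : ℕ) : ℝ :=
  ∏ p ∈ (Icc 1 X).filter Nat.Prime, (1 - (ro F k p : ℝ) / p)

theorem prod_ind (T : Finset ℕ) (hT : ∀ p ∈ T, p.Prime) (N : ℕ) :
    ∏ p ∈ T, (if p ∣ N then (1 : ℝ) else 0) = if (∏ p ∈ T, p) ∣ N then 1 else 0 := by
  classical
  by_cases h : (∏ p ∈ T, p) ∣ N
  · rw [if_pos h]
    apply prod_eq_one
    intro p hp
    rw [if_pos ((dvd_prod_of_mem _ hp).trans h)]
  · rw [if_neg h]
    by_contra hne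
    apply h
    apply Finset.prod_primes_dvd
    · intro p hp
      exact (hT p hp).prime
    · intro p hp
      by_contra hpN
      apply hne
      apply prod_eq_zero hp
      rw [if_neg hpN]

/-- the sieve inequality -/
theorem sieve_ineq (F : ℤ[X]) (k : ℤ) (X : ℕ) (P : Finset ℕ) (hP : ∀ p ∈ P, p.Prime)
    (c : Finset ℕ → ℝ)
    (hc : ∀ N : ℕ, VV P c (fun p => if p ∣ N then 1 else 0) ≤ (if ∀ p ∈ P, ¬ p ∣ N then 1 else 0)) :
    (X : ℝ) * VV P c (fun p => (ro F k p : ℝ) / p) +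
      ∑ T ∈ P.powerset, c T * rr F k (∏ p ∈ T, p) X ≤
      (((Icc 1 X).filter (fun n : ℕ => ∀ p ∈ P, ¬ p ∣ (F.eval (n : ℤ) + k).natAbs)).card : ℝ) := by
  classical
  have h1 : (X : ℝ) * VV P c (fun p => (ro F k p : ℝ) / p) +
      ∑ T ∈ P.powerset, c T * rr F k (∏ p ∈ T, p) X =
      ∑ T ∈ P.powerset, c T * cnt F k (∏ p ∈ T, p) X := by
    unfold VV
    rw [mul_sum, ← sum_add_distrib]
    apply sum_congr rfl
    intro T hT
    rw [mem_powerset] at hT
    unfold rr
    rw [ro_prod F k T (fun p hp => hP p (hT hp))]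
    push_cast
    rw [prod_div_distrib]
    ring
  rw [h1, card_filter]
  push_cast
  have h2 : ∑ T ∈ P.powerset, c T * (cnt F k (∏ p ∈ T, p) X : ℝ) =
      ∑ n ∈ Icc 1 X, VV P c (fun p => if p ∣ (F.eval (n : ℤ) + k).natAbs then 1 else 0) := by
    unfold VV
    rw [sum_comm]
    apply sum_congr rfl
    intro T hT
    rw [mem_powerset] at hT
    unfold cnt
    rw [card_filter]
    push_cast
    rw [mul_sum]
    apply sum_congr rfl
    intro n _
    rw [prod_ind T (fun p hp => hP p (hT hp))]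
    congr 1
    have h3 : (((∏ p ∈ T, p : ℕ) : ℤ) ∣ F.eval (n : ℤ) + k) ↔
        (∏ p ∈ T, p) ∣ (F.eval (n : ℤ) + k).natAbs := Int.natCast_dvd
    push_cast at h3
    by_cases h4 : (∏ p ∈ T, p) ∣ (F.eval (n : ℤ) + k).natAbs
    · rw [if_pos (h3.2 h4), if_pos h4]
    · rw [if_neg (fun h => h4 (h3.1 h)), if_neg h4]
  rw [h2]
  apply sum_le_sum
  intro n _
  exact hc _

theorem small_vals (F : ℤ[X]) (hF : 1 ≤ F.natDegree) (k : ℤ) (X : ℕ) :
    ((Icc 1 X).filter (fun n : ℕ => |F.eval (n : ℤ) + k| ≤ 1)).card ≤ 3 * F.natDegree := by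
  classical
  have h1 : ∀ j : ℤ, ((Icc 1 X).filter (fun n : ℕ => F.eval (n : ℤ) + k = j)).card ≤ F.natDegree := by
    intro j
    set G : ℤ[X] := F + C (k - j) with hG
    have hG1 : G.natDegree = F.natDegree := by
      rw [hG]
      exact natDegree_add_C
    have hG0 : G ≠ 0 := by
      intro h
      rw [h, natDegree_zero] at hG1
      omega
    calc ((Icc 1 X).filter (fun n : ℕ => F.eval (n : ℤ) + k = j)).card
        ≤ G.roots.toFinset.card := by
          apply card_le_card_of_injOn (fun n : ℕ => (n : ℤ))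
          · intro n hn
            rw [mem_coe, mem_filter] at hn
            rw [mem_coe, Multiset.mem_toFinset, mem_roots hG0, IsRoot.def, hG, eval_add, eval_C]
            linarith [hn.2]
          · intro a _ b _ hab
            simp only at hab
            exact_mod_cast hab
      _ ≤ Multiset.card G.roots := Multiset.toFinset_card_le _
      _ ≤ G.natDegree := card_roots' G
      _ = F.natDegree := hG1
  calc ((Icc 1 X).filter (fun n : ℕ => |F.eval (n : ℤ) + k| ≤ 1)).card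
      ≤ ((Icc (-1 : ℤ) 1).biUnion (fun j => (Icc 1 X).filter
        (fun n : ℕ => F.eval (n : ℤ) + k = j))).card := by
        apply card_le_card
        intro n hn
        rw [mem_filter] at hn
        rw [mem_biUnion]
        refine ⟨F.eval (n : ℤ) + k, ?_, ?_⟩
        · rw [mem_Icc]
          exact abs_le.1 hn.2
        · rw [mem_filter]
          exact ⟨hn.1, rfl⟩
    _ ≤ ∑ j ∈ Icc (-1 : ℤ) 1, ((Icc 1 X).filter (fun n : ℕ => F.eval (n : ℤ) + k = j)).card :=
        card_biUnion_le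
    _ ≤ ∑ j ∈ Icc (-1 : ℤ) 1, F.natDegree := sum_le_sum fun j _ => h1 j
    _ = 3 * F.natDegree := by
        rw [sum_const]
        simp

/-- comparison of the sifted set and the set of the statement -/
theorem sifted_le (F : ℤ[X]) (hF : 1 ≤ F.natDegree) (k : ℤ) (X Y : ℕ) (v ζ : ℝ) (hX : 2 ≤ X)
    (hY : 2 ≤ Y) (hXY : (X : ℝ) ^ v < (Y : ℝ) ^ ζ) (hζ : ζ ≤ 1) :
    (((Icc 1 X).filter (fun n : ℕ => ∀ p ∈ PZ Y ζ, ¬ p ∣ (F.eval (n : ℤ) + k).natAbs)).card : ℝ) ≤
      (good F k X v).card + 3 * F.natDegree := by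
  classical
  have hYr : (2 : ℝ) ≤ Y := by exact_mod_cast hY
  have h1 : ((Icc 1 X).filter (fun n : ℕ => ∀ p ∈ PZ Y ζ, ¬ p ∣ (F.eval (n : ℤ) + k).natAbs)) ⊆
      good F k X v ∪ (Icc 1 X).filter (fun n : ℕ => |F.eval (n : ℤ) + k| ≤ 1) := by
    intro n hn
    rw [mem_filter] at hn
    rw [mem_union]
    rcases le_or_gt |F.eval (n : ℤ) + k| 1 with h | h
    · right
      rw [mem_filter]
      exact ⟨hn.1, h⟩
    · left
      unfold good
      rw [mem_filter]
      refine ⟨hn.1, h, ?_⟩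
      intro p hp hd
      by_contra hlt
      push Not at hlt
      apply hn.2 p
      · unfold PZ
        have h2 : (p : ℝ) < (Y : ℝ) ^ ζ := hlt.trans_lt hXY
        rw [mem_filter, mem_Icc]
        refine ⟨⟨hp.one_le, ?_⟩, hp, (tt_lt Y p ζ hY hp.pos).2 h2⟩
        have h3 : (Y : ℝ) ^ ζ ≤ Y := by
          calc (Y : ℝ) ^ ζ ≤ (Y : ℝ) ^ (1 : ℝ) :=
                Real.rpow_le_rpow_of_exponent_le (by linarith) hζ
            _ = Y := Real.rpow_one _
        exact_mod_cast (h2.trans_le h3).le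
      · exact Int.natCast_dvd.1 hd
  have h2 := (card_le_card h1).trans (card_union_le _ _)
  have h3 := small_vals F hF k X
  have h4 : ((Icc 1 X).filter
      (fun n : ℕ => ∀ p ∈ PZ Y ζ, ¬ p ∣ (F.eval (n : ℤ) + k).natAbs)).card ≤
      (good F k X v).card + 3 * F.natDegree := by omega
  exact_mod_cast h4

end Pool.Agent.Y882.PX
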