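import Pool.Agent.Y882.PX.MerY

/-! Lower bound for the product of the local factors. -/

set_option autoImplicit false

namespace Pool.Agent.Y882.PX

open Finset Polynomial Filter
open Pool.Agent.W23.DC

/-- lower bound for one local factor -/
theorem fac_low (κ p : ℕ) (r : ℝ) (hp : 2 ≤ p) (hr1 : r ≤ κ) (hr2 : r ≤ p - 1) :
    (if p < 2 * κ + 1 then 1 / (2 * (κ : ℝ) + 1) else 1) * (1 - 1 / (p : ℝ)) ^ (2 * κ) ≤
      1 - r / p := by
  have hpr : (2 : ℝ) ≤ p := by exact_mod_cast hp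
  have hp0 : (0 : ℝ) < p := by linarith
  have h0 : 0 ≤ 1 - 1 / (p : ℝ) := by
    rw [sub_nonneg, div_le_one hp0]
    linarith
  have h1 : 1 - 1 / (p : ℝ) ≤ 1 := by
    have : 0 ≤ 1 / (p : ℝ) := by positivity
    linarith
  have hκ : (0 : ℝ) ≤ κ := Nat.cast_nonneg _
  split_ifs with h
  · have h2 : (1 - 1 / (p : ℝ)) ^ (2 * κ) ≤ 1 := pow_le_one₀ h0 h1
    have h3 : 1 / (2 * (κ : ℝ) + 1) ≤ 1 - r / p := by
      have h4 : (p : ℝ) ≤ 2 * κ + 1 := by exact_mod_cast h.le
      calc 1 / (2 * (κ : ℝ) + 1) ≤ 1 / p := one_div_le_one_div_of_le hp0 h4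
        _ = 1 - ((p : ℝ) - 1) / p := by field_simp; ring
        _ ≤ 1 - r / p := by
          have := div_le_div_of_nonneg_right hr2 hp0.le
          linarith
    calc 1 / (2 * (κ : ℝ) + 1) * (1 - 1 / (p : ℝ)) ^ (2 * κ) ≤ 1 / (2 * (κ : ℝ) + 1) * 1 :=
          mul_le_mul_of_nonneg_left h2 (by positivity)
      _ ≤ _ := by linarith
  · rw [one_mul]
    have h4 : 2 * (κ : ℝ) + 1 ≤ p := by exact_mod_cast not_lt.1 h
    have h5 : 1 + ((2 * κ : ℕ) : ℝ) * (1 / p) ≤ (1 + 1 / (p : ℝ)) ^ (2 * κ) :=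
      one_add_mul_le_pow (by have : 0 ≤ 1 / (p : ℝ) := by positivity
                             linarith) _
    have h6 : (1 - 1 / (p : ℝ)) ^ (2 * κ) * (1 + 1 / (p : ℝ)) ^ (2 * κ) ≤ 1 := by
      rw [← mul_pow]
      apply pow_le_one₀
      · positivity
      · have : (1 - 1 / (p : ℝ)) * (1 + 1 / p) = 1 - (1 / p) ^ 2 := by ring
        rw [this]
        nlinarith [sq_nonneg (1 / (p : ℝ))]
    have h7 : 0 ≤ (1 - 1 / (p : ℝ)) ^ (2 * κ) := by positivity
    have h8 : (1 - 1 / (p : ℝ)) ^ (2 * κ) * (1 + ((2 * κ : ℕ) : ℝ) * (1 / p)) ≤ 1 :=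
      (mul_le_mul_of_nonneg_left h5 h7).trans h6
    have h9 : 0 < 1 + ((2 * κ : ℕ) : ℝ) * (1 / p) := by positivity
    have h10 : 1 ≤ (1 - κ / (p : ℝ)) * (1 + ((2 * κ : ℕ) : ℝ) * (1 / p)) := by
      have h11 : (1 - κ / (p : ℝ)) * (1 + ((2 * κ : ℕ) : ℝ) * (1 / p)) =
          1 + (κ / p) * (1 - 2 * κ / p) := by
        push_cast
        ring
      rw [h11]
      have h12 : 0 ≤ 1 - 2 * (κ : ℝ) / p := by
        rw [sub_nonneg, div_le_one hp0]
        linarith
      have : 0 ≤ (κ / (p : ℝ)) * (1 - 2 * κ / p) := by positivity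
      linarith
    have h11 : (1 - 1 / (p : ℝ)) ^ (2 * κ) ≤ 1 - κ / (p : ℝ) := by
      have := h8.trans h10
      exact le_of_mul_le_mul_right this h9
    refine h11.trans ?_
    have := div_le_div_of_nonneg_right hr1 hp0.le
    linarith

/-- lower bound for the product of the local factors -/
theorem V_low (κ : ℕ) : ∃ c : ℝ, 0 < c ∧ ∀ (J : ℕ) (P : Finset ℕ) (r : ℕ → ℝ),
    (∀ p ∈ P, p.Prime ∧ p < 2 ^ 2 ^ J) → (∀ p ∈ P, r p ≤ κ) →
    (∀ p ∈ P, r p ≤ p - 1) → c * (1 / 2 ^ J) ^ (2 * κ) ≤ ∏ p ∈ P, (1 - r p / p) := by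
  classical
  obtain ⟨c, C, hc, -, H⟩ := Pool.Agent.Helper112.LP.mertens_prod
  refine ⟨(1 / (2 * (κ : ℝ) + 1)) ^ (2 * κ + 1) * c ^ (2 * κ), by positivity, ?_⟩
  intro J P r hP hr1 hr2
  have h1 := (H J).1
  calc (1 / (2 * (κ : ℝ) + 1)) ^ (2 * κ + 1) * c ^ (2 * κ) * (1 / 2 ^ J) ^ (2 * κ)
      = (1 / (2 * (κ : ℝ) + 1)) ^ (2 * κ + 1) * (c / 2 ^ J) ^ (2 * κ) := by
        rw [div_pow, div_pow, one_pow]
        ring
    _ ≤ (1 / (2 * (κ : ℝ) + 1)) ^ (2 * κ + 1) * (∏ p ∈ P, (1 - 1 / (p : ℝ))) ^ (2 * κ) := by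
        apply mul_le_mul_of_nonneg_left _ (by positivity)
        apply pow_le_pow_left₀ (by positivity)
        refine h1.trans ?_
        have hsub : P ⊆ (range (2 ^ 2 ^ J)).filter Nat.Prime := by
          intro p hp
          rw [mem_filter, mem_range]
          exact ⟨(hP p hp).2, (hP p hp).1⟩
        have h01 : ∀ l ∈ (range (2 ^ 2 ^ J)).filter Nat.Prime, 0 ≤ 1 - (1 : ℝ) / l ∧
            1 - (1 : ℝ) / l ≤ 1 := by
          intro l hl
          have : (2 : ℝ) ≤ l := by exact_mod_cast (mem_filter.1 hl).2.two_le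
          constructor
          · rw [sub_nonneg, div_le_one (by linarith)]
            linarith
          · have : 0 ≤ 1 / (l : ℝ) := by positivity
            linarith
        rw [← prod_sdiff hsub]
        calc (∏ l ∈ (range (2 ^ 2 ^ J)).filter Nat.Prime \ P, (1 - (1 : ℝ) / l)) *
            ∏ l ∈ P, (1 - (1 : ℝ) / l) ≤ 1 * ∏ l ∈ P, (1 - (1 : ℝ) / l) := by
              apply mul_le_mul_of_nonneg_right
              · apply prod_le_one
                · intro l hl
                  exact (h01 l (mem_sdiff.1 hl).1).1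
                · intro l hl
                  exact (h01 l (mem_sdiff.1 hl).1).2
              · exact prod_nonneg fun l hl => (h01 l (hsub hl)).1
          _ = _ := one_mul _
    _ ≤ (∏ p ∈ P, (if p < 2 * κ + 1 then 1 / (2 * (κ : ℝ) + 1) else 1)) *
          (∏ p ∈ P, (1 - 1 / (p : ℝ))) ^ (2 * κ) := by
        apply mul_le_mul_of_nonneg_right
        · rw [← prod_filter, prod_const]
          apply pow_le_pow_of_le_one (by positivity)
          · rw [div_le_one (by positivity)]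
            have : (0 : ℝ) ≤ κ := Nat.cast_nonneg _
            linarith
          · calc (P.filter (fun p => p < 2 * κ + 1)).card ≤ (range (2 * κ + 1)).card := by
                  apply card_le_card
                  intro p hp
                  rw [mem_filter] at hp
                  exact mem_range.2 hp.2
              _ = 2 * κ + 1 := card_range _
        · apply pow_nonneg
          apply prod_nonneg
          intro p hp
          have : (2 : ℝ) ≤ p := by exact_mod_cast (hP p hp).1.two_le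
          rw [sub_nonneg, div_le_one (by linarith)]
          linarith
    _ = ∏ p ∈ P, ((if p < 2 * κ + 1 then 1 / (2 * (κ : ℝ) + 1) else 1) *
          (1 - 1 / (p : ℝ)) ^ (2 * κ)) := by
        rw [prod_mul_distrib, prod_pow]
    _ ≤ ∏ p ∈ P, (1 - r p / p) := by
        apply Finset.prod_le_prod
        · intro p hp
          have : (2 : ℝ) ≤ p := by exact_mod_cast (hP p hp).1.two_le
          have : 0 ≤ 1 - 1 / (p : ℝ) := by
            rw [sub_nonneg, div_le_one (by linarith)]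
            linarith
          split_ifs <;> positivity
        · intro p hp
          exact fac_low κ p (r p) (hP p hp).1.two_le (hr1 p hp) (hr2 p hp)

end Pool.Agent.Y882.PX
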