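import Pool.Agent.Y882.PX.MerX

/-! Regularity of the numbers of the roots, for all but few constant terms. -/

set_option autoImplicit false

namespace Pool.Agent.Y882.PX

open Finset Polynomial Filter
open Pool.Agent.W23.DC

theorem cells_sum (Y : ℕ) (ε₁ δ : ℝ) (hδ : 0 ≤ δ) (g : ℕ → ℝ) (j : ℕ) :
    ∑ p ∈ pr Y ε₁ (ε₁ + j * δ), g p =
      ∑ i ∈ range j, ∑ p ∈ pr Y (ε₁ + i * δ) (ε₁ + i * δ + δ), g p := by
  classical
  induction j with
  | zero =>
    have : pr Y ε₁ (ε₁ + ((0 : ℕ) : ℝ) * δ) = ∅ := by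
      unfold pr
      rw [filter_eq_empty_iff]
      rintro p _ ⟨_, h1, h2⟩
      push_cast at h2
      linarith
    rw [this]
    simp
  | succ j ih =>
    rw [sum_range_succ, ← ih]
    have h1 : ε₁ + ((j + 1 : ℕ) : ℝ) * δ = ε₁ + j * δ + δ := by push_cast; ring
    rw [h1]
    apply pr_split
    · have : (0 : ℝ) ≤ j * δ := by positivity
      linarith
    · linarith

open Classical in
/-- regularity, for all but few constant terms -/
theorem mer_ro (F : ℤ[X]) (hF : 1 ≤ F.natDegree) (ε₁ ζ η ε : ℝ) (hε₁ : 0 < ε₁) (hζ : ζ ≤ 1 / 2)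
    (hη : 0 < η) (hε : 0 < ε) : ∃ Y0 : ℕ, ∀ Y : ℕ, Y0 ≤ Y →
      (((Icc (-(Y : ℤ)) Y).filter (fun k => ¬ Mer (pr Y ε₁ ζ) (tt Y)
        (fun p => (ro F k p : ℝ) / p) ε₁ ζ η)).card : ℝ) ≤ (Y : ℝ) ^ (2 / 3 + ε) := by
  rcases lt_or_ge ζ ε₁ with hεζ | hεζ
  · refine ⟨0, fun Y _ => ?_⟩
    have : (Icc (-(Y : ℤ)) Y).filter (fun k => ¬ Mer (pr Y ε₁ ζ) (tt Y)
        (fun p => (ro F k p : ℝ) / p) ε₁ ζ η) = ∅ := by
      rw [filter_eq_empty_iff]
      intro k _ h
      apply h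
      intro a b ha hab hb
      exfalso
      linarith
    rw [this]
    simp only [card_empty, Nat.cast_zero]
    positivity
  have hε2 : ε₁ ≤ 1 / 2 := hεζ.trans hζ
  set K : ℝ := (KF F : ℝ) + 1 with hK
  have hK1 : 1 ≤ K := by
    have : (0 : ℝ) ≤ KF F := Nat.cast_nonneg _
    linarith
  -- the number of the cells
  obtain ⟨J, hJ1, hJ2, hJ3, hJ4⟩ : ∃ J : ℕ, 1 ≤ J ∧ 16 / (ε₁ * ε) ≤ J ∧
      16 * K / (ε₁ * η) ≤ J ∧ (2 : ℝ) ≤ J := by
    obtain ⟨J, hJ⟩ := exists_nat_ge (max (16 / (ε₁ * ε)) (max (16 * K / (ε₁ * η)) 2))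
    have h1 := (le_max_left _ _).trans hJ
    have h2 := ((le_max_left _ _).trans (le_max_right _ _)).trans hJ
    have h3 := ((le_max_right _ _).trans (le_max_right _ _)).trans hJ
    have h4 : 2 ≤ J := by exact_mod_cast h3
    exact ⟨J, by omega, h1, h2, h3⟩
  have hJ0 : (0 : ℝ) < J := by linarith
  set δ : ℝ := 1 / J with hδ
  have hδ0 : 0 < δ := by positivity
  have hδa : δ ≤ ε₁ * (ε / 2) / 8 := by
    rw [hδ, div_le_iff₀ hJ0]
    rw [div_le_iff₀ (by positivity)] at hJ2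
    linarith
  have hδb : K * (δ / ε₁) ≤ η / 16 := by
    have h1 : K * (δ / ε₁) = K / (ε₁ * J) := by rw [hδ]; field_simp
    rw [h1, div_le_iff₀ (by positivity)]
    rw [div_le_iff₀ (by positivity)] at hJ3
    linarith
  have hδc : δ ≤ 1 / 2 := by
    rw [hδ]
    exact one_div_le_one_div_of_le (by norm_num) hJ4
  have hJδ : (J : ℝ) * δ = 1 := by rw [hδ]; field_simp
  -- the cells
  have hcell : ∀ i : ℕ, ∃ Y0 : ℕ, ∀ Y : ℕ, Y0 ≤ Y → ε₁ + i * δ ≤ 1 / 2 →
      (((Icc (-(Y : ℤ)) Y).filter (fun k => η / (16 * J) <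
        |∑ p ∈ pr Y (ε₁ + i * δ) (ε₁ + i * δ + δ), gd F k p|)).card : ℝ) ≤
        (Y : ℝ) ^ (2 / 3 + ε / 2) := by
    intro i
    by_cases h : ε₁ + i * δ ≤ 1 / 2
    · have h0 : (0 : ℝ) ≤ i * δ := by positivity
      obtain ⟨Y0, HY0⟩ := cell F hF (ε₁ + i * δ) δ (η / (16 * J)) (ε / 2) (by linarith)
        (by linarith) hδ0 (hδa.trans (by
          apply div_le_div_of_nonneg_right _ (by norm_num)
          apply mul_le_mul_of_nonneg_right _ (by linarith)
          linarith)) (by linarith) (by positivity) (by linarith)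
      exact ⟨Y0, fun Y hY _ => HY0 Y hY⟩
    · exact ⟨0, fun Y _ h' => absurd h' h⟩
  choose Y0 HY0 using hcell
  set η' : ℝ := η / (16 * K) with hη'
  have hη'0 : 0 < η' := by positivity
  obtain ⟨N0, HM⟩ := Pool.Agent.W378.DC.MP ε₁ η' hε₁ hη'0
  have ev1 : ∀ᶠ Y : ℕ in atTop, (J : ℝ) ≤ (Y : ℝ) ^ (ε / 2) :=
    tendsto_natCast_atTop_atTop.eventually
      ((tendsto_rpow_atTop (by linarith)).eventually_ge_atTop _)
  have ev2 : ∀ᶠ Y : ℕ in atTop, (Real.log (1 / ε₁) + η') / (η / 8) ≤ (Y : ℝ) ^ ε₁ :=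
    tendsto_natCast_atTop_atTop.eventually ((tendsto_rpow_atTop hε₁).eventually_ge_atTop _)
  obtain ⟨N1, hN1⟩ := eventually_atTop.1 (ev1.and (ev2.and (eventually_ge_atTop 2)))
  refine ⟨max (max N0 N1) ((range J).sup Y0), fun Y hY => ?_⟩
  obtain ⟨e1, e2, e3⟩ := hN1 Y (((le_max_right _ _).trans (le_max_left _ _)).trans hY)
  have hYN0 : N0 ≤ Y := ((le_max_left _ _).trans (le_max_left _ _)).trans hY
  have hYr : (2 : ℝ) ≤ Y := by exact_mod_cast e3
  have hY1 : (1 : ℝ) ≤ Y := by linarith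
  have hY0 : (0 : ℝ) < Y := by linarith
  set A : ℕ → Finset ℤ := fun i => if ε₁ + i * δ ≤ 1 / 2 then (Icc (-(Y : ℤ)) Y).filter
    (fun k => η / (16 * J) < |∑ p ∈ pr Y (ε₁ + i * δ) (ε₁ + i * δ + δ), gd F k p|) else ∅ with hA
  have hAc : ∀ i ∈ range J, ((A i).card : ℝ) ≤ (Y : ℝ) ^ (2 / 3 + ε / 2) := by
    intro i hi
    simp only [hA]
    split_ifs with h
    · apply HY0 i Y _ h
      exact ((Finset.le_sup hi).trans (le_max_right _ _)).trans hY
    · simp only [card_empty, Nat.cast_zero]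
      positivity
  have hsub : (Icc (-(Y : ℤ)) Y).filter (fun k => ¬ Mer (pr Y ε₁ ζ) (tt Y)
      (fun p => (ro F k p : ℝ) / p) ε₁ ζ η) ⊆ (range J).biUnion A := by
    intro k hk
    rw [mem_filter] at hk
    by_contra hcon
    apply hk.2
    have hgood : ∀ i ∈ range J, ε₁ + i * δ ≤ 1 / 2 →
        |∑ p ∈ pr Y (ε₁ + i * δ) (ε₁ + i * δ + δ), gd F k p| ≤ η / (16 * J) := by
      intro i hi hi2
      by_contra h
      push Not at h
      apply hcon
      rw [mem_biUnion]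
      refine ⟨i, hi, ?_⟩
      simp only [hA]
      rw [if_pos hi2, mem_filter]
      exact ⟨hk.1, h⟩
    -- partial sums
    have hS : ∀ x : ℝ, ε₁ ≤ x → x ≤ ζ → |∑ p ∈ pr Y ε₁ x, gd F k p| ≤ 3 * η / 16 := by
      intro x hx1 hx2
      set j : ℕ := ⌊(x - ε₁) / δ⌋₊ with hj
      have hj1 : (j : ℝ) * δ ≤ x - ε₁ := by
        rw [← le_div_iff₀ hδ0]
        exact Nat.floor_le (div_nonneg (by linarith) hδ0.le)
      have hj2 : x - ε₁ < ((j : ℝ) + 1) * δ := by
        rw [← div_lt_iff₀ hδ0]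
        exact Nat.lt_floor_add_one _
      have hjJ : j ≤ J := by
        have h1 : (j : ℝ) * δ ≤ J * δ := by linarith
        exact_mod_cast le_of_mul_le_mul_right h1 hδ0
      have hj0 : (0 : ℝ) ≤ j * δ := by positivity
      rw [pr_split Y ε₁ (ε₁ + j * δ) x (by linarith) (by linarith), cells_sum Y ε₁ δ hδ0.le]
      have h1 : |∑ i ∈ range j, ∑ p ∈ pr Y (ε₁ + i * δ) (ε₁ + i * δ + δ), gd F k p| ≤ η / 16 := by
        calc |∑ i ∈ range j, ∑ p ∈ pr Y (ε₁ + i * δ) (ε₁ + i * δ + δ), gd F k p|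
            ≤ ∑ i ∈ range j, |∑ p ∈ pr Y (ε₁ + i * δ) (ε₁ + i * δ + δ), gd F k p| :=
              abs_sum_le_sum_abs _ _
          _ ≤ ∑ i ∈ range j, η / (16 * J) := by
              apply sum_le_sum
              intro i hi
              rw [mem_range] at hi
              have hi2 : (i : ℝ) * δ ≤ j * δ := by
                apply mul_le_mul_of_nonneg_right _ hδ0.le
                exact_mod_cast hi.le
              exact hgood i (mem_range.2 (by omega)) (by linarith)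
          _ = j * (η / (16 * J)) := by rw [sum_const, card_range, nsmul_eq_mul]
          _ ≤ J * (η / (16 * J)) := by
              apply mul_le_mul_of_nonneg_right _ (by positivity)
              exact_mod_cast hjJ
          _ = η / 16 := by field_simp
      have h2 : |∑ p ∈ pr Y (ε₁ + j * δ) x, gd F k p| ≤ η / 8 := by
        have hM := HM Y hYN0 (ε₁ + j * δ) x (by linarith) (by linarith) (by linarith)
        rw [abs_le] at hM
        have h3 : Real.log (x / (ε₁ + j * δ)) ≤ δ / ε₁ := by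
          have h4 : 0 < ε₁ + j * δ := by linarith
          have h5 : 0 < x / (ε₁ + j * δ) := div_pos (by linarith) h4
          refine (Real.log_le_sub_one_of_pos h5).trans ?_
          rw [div_sub_one h4.ne', div_le_div_iff₀ h4 hε₁]
          have h6 : x - (ε₁ + j * δ) ≤ δ := by linarith
          calc (x - (ε₁ + j * δ)) * ε₁ ≤ δ * ε₁ := mul_le_mul_of_nonneg_right h6 hε₁.le
            _ ≤ δ * (ε₁ + j * δ) := mul_le_mul_of_nonneg_left (by linarith) hδ0.le
        calc |∑ p ∈ pr Y (ε₁ + j * δ) x, gd F k p| ≤ ∑ p ∈ pr Y (ε₁ + j * δ) x, |gd F k p| :=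
              abs_sum_le_sum_abs _ _
          _ ≤ ∑ p ∈ pr Y (ε₁ + j * δ) x, K * (1 / ((p : ℝ) - 1)) :=
              sum_le_sum fun p hp => gd_abs F hF k p (pr_mem Y p _ _ e3 hp).1
          _ = K * ∑ p ∈ pr Y (ε₁ + j * δ) x, (1 / ((p : ℝ) - 1)) := by rw [mul_sum]
          _ ≤ K * (δ / ε₁ + η') := by
              apply mul_le_mul_of_nonneg_left _ (by linarith)
              linarith [hM.2]
          _ = K * (δ / ε₁) + η / 16 := by rw [hη']; field_simp
          _ ≤ η / 8 := by linarith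
      refine (abs_add_le _ _).trans ?_
      linarith
    intro a b ha hab hb
    have hset : (pr Y ε₁ ζ).filter (fun p => a ≤ tt Y p ∧ tt Y p < b) = pr Y a b := by
      unfold pr
      rw [filter_filter]
      apply filter_congr
      intro p _
      constructor
      · rintro ⟨⟨h6, h7, h8⟩, h9, h10⟩
        exact ⟨h6, h9, h10⟩
      · rintro ⟨h6, h9, h10⟩
        exact ⟨⟨h6, ha.trans h9, h10.trans_le hb⟩, h9, h10⟩
    rw [hset]
    have h1 : |∑ p ∈ pr Y a b, gd F k p| ≤ 3 * η / 8 := by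
      have h2 := pr_split Y ε₁ a b ha hab (gd F k)
      have h3 := hS b (ha.trans hab) hb
      have h4 := hS a ha (hab.trans hb)
      have h5 : ∑ p ∈ pr Y a b, gd F k p =
          ∑ p ∈ pr Y ε₁ b, gd F k p - ∑ p ∈ pr Y ε₁ a, gd F k p := by linarith
      rw [h5]
      refine (abs_sub _ _).trans ?_
      linarith
    have hM := HM Y hYN0 a b ha hab (by linarith)
    have h6 : ∑ p ∈ pr Y a b, (ro F k p : ℝ) / p = ∑ p ∈ pr Y a b, gd F k p +
        ∑ p ∈ pr Y a b, 1 / ((p : ℝ) - 1) -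
        ∑ p ∈ pr Y a b, (1 / ((p : ℝ) - 1) - 1 / p) := by
      rw [← sum_add_distrib, ← sum_sub_distrib]
      apply sum_congr rfl
      intro p _
      unfold gd
      rw [sub_div]
      ring
    have hYε : (0 : ℝ) < (Y : ℝ) ^ ε₁ := by positivity
    have h7 : 0 ≤ ∑ p ∈ pr Y a b, (1 / ((p : ℝ) - 1) - 1 / p) := by
      apply sum_nonneg
      intro p hp
      have h8 : (2 : ℝ) ≤ p := by exact_mod_cast (pr_mem Y p _ _ e3 hp).1.two_le
      have := one_div_le_one_div_of_le (show (0 : ℝ) < p - 1 by linarith)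
        (show (p : ℝ) - 1 ≤ p by linarith)
      linarith
    have h8 : ∑ p ∈ pr Y a b, (1 / ((p : ℝ) - 1) - 1 / p) ≤ η / 8 := by
      have h9 : ∑ p ∈ pr Y a b, (1 / ((p : ℝ) - 1) - 1 / p) ≤
          1 / (Y : ℝ) ^ ε₁ * ∑ p ∈ pr Y a b, 1 / ((p : ℝ) - 1) := by
        rw [mul_sum]
        apply sum_le_sum
        intro p hp
        have h10 : (2 : ℝ) ≤ p := by exact_mod_cast (pr_mem Y p _ _ e3 hp).1.two_le
        have h11 : (Y : ℝ) ^ ε₁ ≤ p :=
          (Real.rpow_le_rpow_of_exponent_le hY1 ha).trans (pr_mem Y p _ _ e3 hp).2.1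
        have h12 : 1 / ((p : ℝ) - 1) - 1 / p = 1 / p * (1 / ((p : ℝ) - 1)) := by
          have : (p : ℝ) - 1 ≠ 0 := by linarith
          have : (p : ℝ) ≠ 0 := by linarith
          field_simp
          ring
        rw [h12]
        apply mul_le_mul_of_nonneg_right _ (by
          have : 0 < (p : ℝ) - 1 := by linarith
          positivity)
        exact one_div_le_one_div_of_le hYε h11
      have h10 : ∑ p ∈ pr Y a b, 1 / ((p : ℝ) - 1) ≤ Real.log (1 / ε₁) + η' := by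
        rw [abs_le] at hM
        have h11 : Real.log (b / a) ≤ Real.log (1 / ε₁) := by
          apply Real.log_le_log (div_pos (by linarith) (by linarith))
          apply div_le_div₀ (by norm_num) (by linarith) hε₁ ha
        linarith [hM.2]
      have h11 : 1 / (Y : ℝ) ^ ε₁ * ∑ p ∈ pr Y a b, 1 / ((p : ℝ) - 1) ≤
          1 / (Y : ℝ) ^ ε₁ * (Real.log (1 / ε₁) + η') :=
        mul_le_mul_of_nonneg_left h10 (by positivity)
      have h12 : 1 / (Y : ℝ) ^ ε₁ * (Real.log (1 / ε₁) + η') ≤ η / 8 := by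
        rw [div_le_iff₀ (by positivity)] at e2
        rw [one_div, inv_mul_le_iff₀ hYε]
        exact e2
      linarith
    have hη'2 : η' ≤ η / 16 := by
      rw [hη']
      apply div_le_div_of_nonneg_left hη.le (by norm_num)
      linarith
    rw [h6]
    rw [abs_le] at h1 hM ⊢
    constructor <;> linarith [h1.1, h1.2, hM.1, hM.2]
  calc (((Icc (-(Y : ℤ)) Y).filter (fun k => ¬ Mer (pr Y ε₁ ζ) (tt Y)
      (fun p => (ro F k p : ℝ) / p) ε₁ ζ η)).card : ℝ) ≤ (((range J).biUnion A).card : ℝ) := by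
        exact_mod_cast card_le_card hsub
    _ ≤ ∑ i ∈ range J, ((A i).card : ℝ) := by
        exact_mod_cast card_biUnion_le
    _ ≤ ∑ i ∈ range J, (Y : ℝ) ^ (2 / 3 + ε / 2) := sum_le_sum hAc
    _ = J * (Y : ℝ) ^ (2 / 3 + ε / 2) := by rw [sum_const, card_range, nsmul_eq_mul]
    _ ≤ (Y : ℝ) ^ (ε / 2) * (Y : ℝ) ^ (2 / 3 + ε / 2) :=
        mul_le_mul_of_nonneg_right e1 (by positivity)
    _ = (Y : ℝ) ^ (2 / 3 + ε) := by
        rw [← Real.rpow_add hY0]
        congr 1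
        ring

end Pool.Agent.Y882.PX
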