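import Pool.Agent.Y882.PX.Ro
import Pool.Agent.H343R2.PV

/-! Parseval's identity for polynomial exponential sums and the dual large sieve. -/

set_option autoImplicit false

namespace Pool.Agent.Y882.PX

open Finset Polynomial
open H343 (ex)

theorem ex_conj (x : ℝ) : (starRingEnd ℂ) (ex x) = ex (-x) := by
  unfold ex
  rw [← Complex.exp_conj]
  congr 1
  rw [map_mul, Complex.conj_ofReal, Complex.conj_I]
  push_cast
  ring

theorem norm_ex (x : ℝ) : ‖ex x‖ = 1 := by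
  unfold ex
  rw [Complex.norm_exp_ofReal_mul_I]

theorem parseval' (q : ℕ) (hq : 0 < q) (G : ℕ → ℂ) :
    ∑ k ∈ range q, ‖∑ b ∈ range q, ex ((b : ℝ) * (k : ℤ) / q) * G b‖ ^ 2 =
      q * ∑ b ∈ range q, ‖G b‖ ^ 2 := by
  have h1 : ∀ z : ℂ, ((‖z‖ ^ 2 : ℝ) : ℂ) = z * (starRingEnd ℂ) z := by
    intro z
    rw [Complex.mul_conj, Complex.normSq_eq_norm_sq]
  have h2 : ((∑ k ∈ range q, ‖∑ b ∈ range q, ex ((b : ℝ) * (k : ℤ) / q) * G b‖ ^ 2 : ℝ) : ℂ) =
      ((q * ∑ b ∈ range q, ‖G b‖ ^ 2 : ℝ) : ℂ) := by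
    rw [Complex.ofReal_sum]
    simp_rw [h1, map_sum, sum_mul_sum]
    rw [sum_comm, Complex.ofReal_mul, Complex.ofReal_natCast, Complex.ofReal_sum, mul_sum]
    apply sum_congr rfl
    intro b hb
    rw [sum_comm]
    rw [mem_range] at hb
    have h3 : ∀ c ∈ range q, ∑ k ∈ range q, ex ((b : ℝ) * (k : ℤ) / q) * G b *
        (starRingEnd ℂ) (ex ((c : ℝ) * (k : ℤ) / q) * G c) =
        if c = b then (q : ℂ) * (G b * (starRingEnd ℂ) (G b)) else 0 := by
      intro c hc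
      rw [mem_range] at hc
      have h4 : ∀ k ∈ range q, ex ((b : ℝ) * (k : ℤ) / q) * G b *
          (starRingEnd ℂ) (ex ((c : ℝ) * (k : ℤ) / q) * G c) =
          ex ((k : ℝ) * (((b : ℤ) - (c : ℤ) : ℤ) : ℝ) / q) * (G b * (starRingEnd ℂ) (G c)) := by
        intro k _
        rw [map_mul, ex_conj]
        have : ex ((k : ℝ) * (((b : ℤ) - (c : ℤ) : ℤ) : ℝ) / q) =
            ex ((b : ℝ) * (k : ℤ) / q) * ex (-((c : ℝ) * (k : ℤ) / q)) := by
          rw [← H343.Gauss.ex_add]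
          congr 1
          push_cast
          ring
        rw [this]
        ring
      rw [sum_congr rfl h4, ← sum_mul, H336V.RamanAux.geom q hq]
      by_cases h : c = b
      · subst h
        simp
      · rw [if_neg, if_neg h, zero_mul]
        intro hd
        apply h
        have h5 : ((b : ℤ) - (c : ℤ)) = 0 := by
          apply Int.eq_zero_of_abs_lt_dvd hd
          rw [abs_lt]
          constructor <;> omega
        omega
    rw [sum_congr rfl h3, sum_ite_eq', if_pos (mem_range.2 hb), ← h1]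
  exact_mod_cast h2

theorem TT_sq (F : ℤ[X]) (X q : ℕ) (hq : 0 < q) (B : ℝ) (hB : ∀ k : ℤ, (ro F k q : ℝ) ≤ B) :
    ∑ b ∈ range q, ‖TT F X q b‖ ^ 2 ≤ 2 * (B + 1) * X * q := by
  have hqr : (0 : ℝ) < q := by exact_mod_cast hq
  have hqC : (q : ℂ) ≠ 0 := by exact_mod_cast hq.ne'
  have h1 := parseval' q hq (fun b => TT F X q b)
  have h2 : ∀ k ∈ range q, ‖∑ b ∈ range q, ex ((b : ℝ) * (k : ℤ) / q) * TT F X q b‖ ^ 2 =
      (q : ℝ) ^ 2 * rr F (k : ℤ) q X ^ 2 := by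
    intro k _
    have h3 : (rr F k q X : ℂ) = 1 / q * ∑ b ∈ range q, ex ((b : ℝ) * (k : ℤ) / q) * TT F X q b := by
      unfold rr TT
      push_cast
      rw [cnt_four F k q X hq, ro_four F k q hq, mul_sum, mul_sum, mul_sum, mul_sum,
        ← sum_sub_distrib]
      apply sum_congr rfl
      intro b _
      push_cast
      ring
    have h4 : ∑ b ∈ range q, ex ((b : ℝ) * (k : ℤ) / q) * TT F X q b = q * (rr F k q X : ℂ) := by
      rw [h3, ← mul_assoc, mul_one_div_cancel hqC, one_mul]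
    rw [h4, norm_mul, mul_pow, Complex.norm_natCast, Complex.norm_real, Real.norm_eq_abs, sq_abs]
  rw [sum_congr rfl h2, ← mul_sum] at h1
  have h3 := sum_rr_sq F q X hq B hB
  have h4 : (q : ℝ) * ∑ b ∈ range q, ‖TT F X q b‖ ^ 2 ≤ q * (2 * (B + 1) * X * q) := by
    rw [← h1]
    calc (q : ℝ) ^ 2 * ∑ k ∈ range q, rr F (k : ℤ) q X ^ 2 ≤ (q : ℝ) ^ 2 * (2 * (B + 1) * X) :=
          mul_le_mul_of_nonneg_left h3 (by positivity)
      _ = _ := by ring
  exact le_of_mul_le_mul_left h4 hqr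

theorem CS_sq (F : ℤ[X]) (q : ℕ) (hq : 0 < q) (B : ℝ) (hB : ∀ k : ℤ, (ro F k q : ℝ) ≤ B) :
    ∑ b ∈ range q, ‖CS F q b‖ ^ 2 ≤ B * (q : ℝ) ^ 2 := by
  have hqr : (0 : ℝ) < q := by exact_mod_cast hq
  have hqC : (q : ℂ) ≠ 0 := by exact_mod_cast hq.ne'
  have h1 := parseval' q hq (fun b => CS F q b)
  have h2 : ∀ k ∈ range q, ‖∑ b ∈ range q, ex ((b : ℝ) * (k : ℤ) / q) * CS F q b‖ ^ 2 =
      (q : ℝ) ^ 2 * (ro F (k : ℤ) q : ℝ) ^ 2 := by
    intro k _
    have h4 : ∑ b ∈ range q, ex ((b : ℝ) * (k : ℤ) / q) * CS F q b = q * (ro F k q : ℂ) := by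
      rw [ro_four F k q hq, ← mul_assoc, mul_one_div_cancel hqC, one_mul]
    rw [h4, norm_mul, mul_pow, Complex.norm_natCast, Complex.norm_natCast]
  rw [sum_congr rfl h2, ← mul_sum] at h1
  have h3 : ∑ k ∈ range q, (ro F (k : ℤ) q : ℝ) ^ 2 ≤ B * q := by
    have h5 : ∑ k ∈ range q, (ro F (k : ℤ) q : ℝ) = q := by exact_mod_cast sum_ro F q hq
    calc ∑ k ∈ range q, (ro F (k : ℤ) q : ℝ) ^ 2 ≤ ∑ k ∈ range q, B * (ro F (k : ℤ) q : ℝ) := by
          apply sum_le_sum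
          intro k _
          rw [sq]
          exact mul_le_mul_of_nonneg_right (hB _) (Nat.cast_nonneg _)
      _ = B * q := by rw [← mul_sum, h5]
  have h4 : (q : ℝ) * ∑ b ∈ range q, ‖CS F q b‖ ^ 2 ≤ q * (B * (q : ℝ) ^ 2) := by
    rw [← h1]
    calc (q : ℝ) ^ 2 * ∑ k ∈ range q, (ro F (k : ℤ) q : ℝ) ^ 2 ≤ (q : ℝ) ^ 2 * (B * q) :=
          mul_le_mul_of_nonneg_left h3 (by positivity)
      _ = _ := by ring
  exact le_of_mul_le_mul_left h4 hqr

/-- the dual large sieve -/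
theorem dual_nat (N D : ℕ) (G : ℕ → ℕ → ℂ) :
    ∑ n ∈ Icc 1 N, ‖∑ f ∈ Icc 1 D, ∑ b ∈ (range f).filter (fun b => b.Coprime f),
      ex ((n : ℝ) * b / f) * G f b‖ ^ 2 ≤
      6 * (N + (D : ℝ) ^ 2) * ∑ f ∈ Icc 1 D, ∑ b ∈ (range f).filter (fun b => b.Coprime f),
        ‖G f b‖ ^ 2 := by
  set W : ℕ → ℂ := fun n => ∑ f ∈ Icc 1 D, ∑ b ∈ (range f).filter (fun b => b.Coprime f),
      ex ((n : ℝ) * b / f) * G f b with hW
  set V : ℝ := ∑ n ∈ Icc 1 N, ‖W n‖ ^ 2 with hV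
  set α : ℕ → ℂ := fun n => (starRingEnd ℂ) (W n) with hα
  set GG : ℝ := ∑ f ∈ Icc 1 D, ∑ b ∈ (range f).filter (fun b => b.Coprime f), ‖G f b‖ ^ 2 with hGG
  have hGG0 : 0 ≤ GG := sum_nonneg fun _ _ => sum_nonneg fun _ _ => by positivity
  have hV0 : 0 ≤ V := sum_nonneg fun _ _ => by positivity
  have hLS := Pool.Agent.Helper112.additive_large_sieve N D α
  have e1 : ∑ n ∈ Icc 1 N, ‖α n‖ ^ 2 = V := by
    rw [hV]
    apply sum_congr rfl
    intro n _
    simp only [hα, RCLike.norm_conj]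
  rw [e1] at hLS
  set S : ℕ → ℕ → ℂ := fun f b => ∑ n ∈ Icc 1 N, α n * Pool.Agent.Helper112.ee (n * b / f) with hS
  have e2 : (V : ℂ) = ∑ x ∈ (Icc 1 D).sigma (fun f => (range f).filter (fun b => b.Coprime f)),
      G x.1 x.2 * S x.1 x.2 := by
    rw [sum_sigma, hV]
    push_cast
    have h1 : ∀ n ∈ Icc 1 N, ((‖W n‖ : ℂ)) ^ 2 = ∑ f ∈ Icc 1 D,
        ∑ b ∈ (range f).filter (fun b => b.Coprime f), α n * (ex ((n : ℝ) * b / f) * G f b) := by
      intro n _
      have h2 : ((‖W n‖ : ℂ)) ^ 2 = α n * W n := by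
        simp only [hα]
        rw [mul_comm, Complex.mul_conj, Complex.normSq_eq_norm_sq]
        push_cast
        rfl
      rw [h2]
      conv_lhs => rw [show W n = ∑ f ∈ Icc 1 D, ∑ b ∈ (range f).filter (fun b => b.Coprime f),
        ex ((n : ℝ) * b / f) * G f b from rfl]
      rw [mul_sum]
      apply sum_congr rfl
      intro f _
      rw [mul_sum]
    rw [sum_congr rfl h1, sum_comm]
    apply sum_congr rfl
    intro f _
    rw [sum_comm]
    apply sum_congr rfl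
    intro b _
    simp only [hS]
    rw [mul_sum]
    apply sum_congr rfl
    intro n _
    rw [H343.PVaux.ex_eq_ee]
    ring
  have e3 : V ≤ ∑ x ∈ (Icc 1 D).sigma (fun f => (range f).filter (fun b => b.Coprime f)),
      ‖G x.1 x.2‖ * ‖S x.1 x.2‖ := by
    calc V = ‖(V : ℂ)‖ := by rw [Complex.norm_real, Real.norm_eq_abs, abs_of_nonneg hV0]
      _ ≤ _ := by
        rw [e2]
        refine (norm_sum_le _ _).trans (le_of_eq ?_)
        apply sum_congr rfl
        intro x _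
        rw [norm_mul]
  have e4 := sum_mul_sq_le_sq_mul_sq
    ((Icc 1 D).sigma (fun f => (range f).filter (fun b => b.Coprime f)))
    (fun x => ‖G x.1 x.2‖) (fun x => ‖S x.1 x.2‖)
  rw [sum_sigma (Icc 1 D) (fun f => (range f).filter (fun b => b.Coprime f))
      (fun x => ‖G x.1 x.2‖ ^ 2), sum_sigma (Icc 1 D) (fun f => (range f).filter
      (fun b => b.Coprime f)) (fun x => ‖S x.1 x.2‖ ^ 2)] at e4
  have e5 : V ^ 2 ≤ GG * (6 * (N + (D : ℝ) ^ 2) * V) := by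
    calc V ^ 2 ≤ (∑ x ∈ (Icc 1 D).sigma (fun f => (range f).filter (fun b => b.Coprime f)),
      ‖G x.1 x.2‖ * ‖S x.1 x.2‖) ^ 2 := pow_le_pow_left₀ hV0 e3 2
      _ ≤ _ := e4
      _ ≤ _ := by
        apply mul_le_mul_of_nonneg_left _ hGG0
        exact hLS
  rcases hV0.eq_or_lt with h | h
  · rw [← h]
    exact mul_nonneg (mul_nonneg (by norm_num) (by positivity)) hGG0
  · have h6 : V * V ≤ (6 * (N + (D : ℝ) ^ 2) * GG) * V := by
      rw [← sq]
      refine e5.trans (le_of_eq ?_)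
      ring
    exact le_of_mul_le_mul_right h6 h

/-- the dual large sieve, on a symmetric interval -/
theorem dual_int (H D : ℕ) (G : ℕ → ℕ → ℂ) :
    ∑ k ∈ Icc (-(H : ℤ)) H, ‖∑ f ∈ Icc 1 D, ∑ b ∈ (range f).filter (fun b => b.Coprime f),
      ex ((b : ℝ) * k / f) * G f b‖ ^ 2 ≤
      6 * (2 * H + 1 + (D : ℝ) ^ 2) * ∑ f ∈ Icc 1 D,
        ∑ b ∈ (range f).filter (fun b => b.Coprime f), ‖G f b‖ ^ 2 := by
  have h1 := dual_nat (2 * H + 1) D (fun f b => ex (-((b : ℝ) * (H + 1) / f)) * G f b)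
  have h2 : ∑ k ∈ Icc (-(H : ℤ)) H, ‖∑ f ∈ Icc 1 D,
      ∑ b ∈ (range f).filter (fun b => b.Coprime f), ex ((b : ℝ) * k / f) * G f b‖ ^ 2 =
      ∑ n ∈ Icc 1 (2 * H + 1), ‖∑ f ∈ Icc 1 D, ∑ b ∈ (range f).filter (fun b => b.Coprime f),
        ex ((n : ℝ) * b / f) * (ex (-((b : ℝ) * (H + 1) / f)) * G f b)‖ ^ 2 := by
    symm
    apply sum_nbij' (i := fun n : ℕ => (n : ℤ) - H - 1) (j := fun k : ℤ => (k + H + 1).toNat)
    · intro n hn
      rw [mem_Icc] at hn ⊢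
      constructor <;> omega
    · intro k hk
      rw [mem_Icc] at hk ⊢
      constructor <;> omega
    · intro n hn
      rw [mem_Icc] at hn
      omega
    · intro k hk
      rw [mem_Icc] at hk
      omega
    · intro n _
      congr 2
      apply sum_congr rfl
      intro f _
      apply sum_congr rfl
      intro b _
      rw [← mul_assoc, ← H343.Gauss.ex_add]
      congr 2
      push_cast
      ring
  rw [h2]
  refine h1.trans (le_of_eq ?_)
  congr 1
  · push_cast; ring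
  · apply sum_congr rfl
    intro f _
    apply sum_congr rfl
    intro b _
    rw [norm_mul, norm_ex, one_mul]

end Pool.Agent.Y882.PX
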