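import Pool.Agent.Y882.PX.Dual

/-! Mean square of the weighted error terms over the constant terms. -/

set_option autoImplicit false

namespace Pool.Agent.Y882.PX

open Finset Polynomial
open H343 (ex)

theorem harm_le (D : ℕ) : ∑ m ∈ Icc 1 D, 1 / (m : ℝ) ≤ 1 + Real.log D := by
  have h := harmonic_le_one_add_log D
  rw [harmonic_eq_sum_Icc] at h
  push_cast at h
  simpa [one_div] using h

theorem pf_prod (T : Finset ℕ) (hT : ∀ p ∈ T, p.Prime) : (∏ p ∈ T, p).primeFactors = T :=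
  Nat.primeFactors_prod hT

theorem tail_le (P : Finset ℕ) (hP : ∀ p ∈ P, p.Prime) (D f : ℕ) (hf : 0 < f) :
    ∑ T ∈ P.powerset.filter (fun T => ∏ p ∈ T, p ≤ D ∧ f ∣ ∏ p ∈ T, p),
      1 / ((∏ p ∈ T, p : ℕ) : ℝ) ≤ (1 + Real.log D) / f := by
  classical
  set S := P.powerset.filter (fun T => ∏ p ∈ T, p ≤ D ∧ f ∣ ∏ p ∈ T, p) with hS
  have hpos : ∀ T ∈ S, 0 < ∏ p ∈ T, p := by
    intro T hT
    rw [hS, mem_filter, mem_powerset] at hT
    exact Nat.pos_of_ne_zero (prod_ne_zero_iff.2 fun p hp => (hP p (hT.1 hp)).ne_zero)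
  have hinj : ∀ T ∈ S, ∀ U ∈ S, (∏ p ∈ T, p) / f = (∏ p ∈ U, p) / f → T = U := by
    intro T hT U hU h
    rw [hS, mem_filter, mem_powerset] at hT hU
    have h2 : ∏ p ∈ T, p = ∏ p ∈ U, p := by
      rw [← Nat.mul_div_cancel' hT.2.2, ← Nat.mul_div_cancel' hU.2.2, h]
    rw [← pf_prod T (fun p hp => hP p (hT.1 hp)), ← pf_prod U (fun p hp => hP p (hU.1 hp)), h2]
  have h1 : ∑ T ∈ S, 1 / ((∏ p ∈ T, p : ℕ) : ℝ) =
      ∑ m ∈ S.image (fun T => (∏ p ∈ T, p) / f), 1 / (m : ℝ) / f := by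
    rw [sum_image (by
      intro T hT U hU h
      exact hinj T hT U hU h)]
    apply sum_congr rfl
    intro T hT
    have h2 := hT
    rw [hS, mem_filter] at h2
    have h3 : ((∏ p ∈ T, p : ℕ) : ℝ) = f * (((∏ p ∈ T, p) / f : ℕ) : ℝ) := by
      exact_mod_cast (Nat.mul_div_cancel' h2.2.2).symm
    rw [h3, div_div, mul_comm]
  rw [h1]
  calc ∑ m ∈ S.image (fun T => (∏ p ∈ T, p) / f), 1 / (m : ℝ) / f
      ≤ ∑ m ∈ Icc 1 D, 1 / (m : ℝ) / f := by
        apply sum_le_sum_of_subset_of_nonneg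
        · intro m hm
          rw [mem_image] at hm
          obtain ⟨T, hT, rfl⟩ := hm
          have h2 := hT
          rw [hS, mem_filter] at h2
          rw [mem_Icc]
          refine ⟨Nat.div_pos (Nat.le_of_dvd (hpos T hT) h2.2.2) hf, ?_⟩
          exact (Nat.div_le_self _ _).trans h2.2.1
        · intro _ _ _
          positivity
    _ = (∑ m ∈ Icc 1 D, 1 / (m : ℝ)) / f := by rw [sum_div]
    _ ≤ (1 + Real.log D) / f := by
        apply div_le_div_of_nonneg_right (harm_le D) (by positivity)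

theorem err_sq (F : ℤ[X]) (P : Finset ℕ) (hP : ∀ p ∈ P, p.Prime) (c : Finset ℕ → ℝ) (L : ℝ)
    (hL : ∀ T, |c T| ≤ L) (D : ℕ) (hD : 1 ≤ D) (B : ℝ)
    (hB : ∀ T ⊆ P, ∏ p ∈ T, p ≤ D → ∀ k : ℤ, (ro F k (∏ p ∈ T, p) : ℝ) ≤ B)
    (hc : ∀ T ⊆ P, c T ≠ 0 → ∏ p ∈ T, p ≤ D) (H X : ℕ) :
    ∑ k ∈ Icc (-(H : ℤ)) H, (∑ T ∈ P.powerset, c T * rr F k (∏ p ∈ T, p) X) ^ 2 ≤
      6 * (2 * H + 1 + (D : ℝ) ^ 2) * (2 * L ^ 2 * (1 + Real.log D) ^ 3 * (B + 1) * X) := by
  classical
  have hL0 : 0 ≤ L := (abs_nonneg _).trans (hL ∅)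
  have hB0 : 0 ≤ B := le_trans (Nat.cast_nonneg _) (hB ∅ (empty_subset _) (by simpa using hD) 0)
  have hlD : 0 ≤ Real.log D := Real.log_natCast_nonneg D
  set S : ℕ → Finset (Finset ℕ) := fun f => P.powerset.filter
    (fun T => ∏ p ∈ T, p ≤ D ∧ f ∣ ∏ p ∈ T, p) with hS
  set lam : ℕ → ℝ := fun f => ∑ T ∈ S f, c T / ((∏ p ∈ T, p : ℕ) : ℝ) with hlam
  set G : ℕ → ℕ → ℂ := fun f b => (lam f : ℂ) * TT F X f b with hG
  have hpos : ∀ T ⊆ P, 0 < ∏ p ∈ T, p := fun T hT =>
    Nat.pos_of_ne_zero (prod_ne_zero_iff.2 fun p hp => (hP p (hT hp)).ne_zero)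
  have key : ∀ k : ℤ, ((∑ T ∈ P.powerset, c T * rr F k (∏ p ∈ T, p) X : ℝ) : ℂ) =
      ∑ f ∈ Icc 1 D, ∑ b ∈ (range f).filter (fun b => b.Coprime f),
        ex ((b : ℝ) * k / f) * G f b := by
    intro k
    set E : ℕ → ℂ := fun f => ∑ b ∈ (range f).filter (fun b => b.Coprime f),
      ex ((b : ℝ) * k / f) * TT F X f b with hE
    have h1 : ∀ f ∈ Icc 1 D, ∑ b ∈ (range f).filter (fun b => b.Coprime f),
        ex ((b : ℝ) * k / f) * G f b = ∑ T ∈ P.powerset, if (∏ p ∈ T, p ≤ D ∧ f ∣ ∏ p ∈ T, p) then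
          ((c T / ((∏ p ∈ T, p : ℕ) : ℝ) : ℝ) : ℂ) * E f else 0 := by
      intro f _
      rw [← sum_filter, ← sum_mul]
      simp only [hE, hG]
      rw [mul_sum]
      apply sum_congr rfl
      intro b _
      simp only [hlam, hS]
      push_cast
      ring
    rw [sum_congr rfl h1, sum_comm, Complex.ofReal_sum]
    apply sum_congr rfl
    intro T hT
    rw [mem_powerset] at hT
    by_cases hcT : c T = 0
    · simp [hcT]
    have hTD := hc T hT hcT
    have h2 : ∀ f ∈ Icc 1 D, (if (∏ p ∈ T, p ≤ D ∧ f ∣ ∏ p ∈ T, p) then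
          ((c T / ((∏ p ∈ T, p : ℕ) : ℝ) : ℝ) : ℂ) * E f else 0) =
        if f ∣ ∏ p ∈ T, p then ((c T / ((∏ p ∈ T, p : ℕ) : ℝ) : ℝ) : ℂ) * E f else 0 := by
      intro f _
      simp only [hTD, true_and]
    rw [sum_congr rfl h2, ← sum_filter]
    have h3 : (Icc 1 D).filter (fun f => f ∣ ∏ p ∈ T, p) = (∏ p ∈ T, p).divisors := by
      ext f
      rw [mem_filter, mem_Icc, Nat.mem_divisors]
      constructor
      · rintro ⟨_, h⟩
        exact ⟨h, (hpos T hT).ne'⟩
      · rintro ⟨h, _⟩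
        exact ⟨⟨Nat.pos_of_dvd_of_pos h (hpos T hT),
          (Nat.le_of_dvd (hpos T hT) h).trans hTD⟩, h⟩
    rw [h3, ← mul_sum]
    rw [Complex.ofReal_mul, rr_four F k _ X (hpos T hT)]
    push_cast
    ring
  have h1 : ∑ k ∈ Icc (-(H : ℤ)) H, (∑ T ∈ P.powerset, c T * rr F k (∏ p ∈ T, p) X) ^ 2 =
      ∑ k ∈ Icc (-(H : ℤ)) H, ‖∑ f ∈ Icc 1 D, ∑ b ∈ (range f).filter (fun b => b.Coprime f),
        ex ((b : ℝ) * k / f) * G f b‖ ^ 2 := by
    apply sum_congr rfl
    intro k _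
    rw [← key k, Complex.norm_real, Real.norm_eq_abs, sq_abs]
  rw [h1]
  refine (dual_int H D G).trans ?_
  apply mul_le_mul_of_nonneg_left _ (by positivity)
  have h2 : ∀ f ∈ Icc 1 D, ∑ b ∈ (range f).filter (fun b => b.Coprime f), ‖G f b‖ ^ 2 ≤
      2 * L ^ 2 * (1 + Real.log D) ^ 2 * (B + 1) * X * (1 / (f : ℝ)) := by
    intro f hf
    rw [mem_Icc] at hf
    have hf0 : (0 : ℝ) < f := by exact_mod_cast hf.1
    have hr0 : (0 : ℝ) ≤ 2 * L ^ 2 * (1 + Real.log D) ^ 2 * (B + 1) * X * (1 / (f : ℝ)) := by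
      positivity
    by_cases hem : S f = ∅
    · have h3 : lam f = 0 := by
        simp only [hlam, hem, sum_empty]
      have h4 : ∀ b ∈ (range f).filter (fun b => b.Coprime f), ‖G f b‖ ^ 2 = 0 := by
        intro b _
        simp only [hG, h3]
        simp
      rw [sum_congr rfl h4]
      simpa using hr0
    · obtain ⟨T, hT⟩ := nonempty_iff_ne_empty.2 hem
      simp only [hS, mem_filter, mem_powerset] at hT
      obtain ⟨hTP, hTD, hfT⟩ := hT
      have hsub : f.primeFactors ⊆ T := by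
        rw [← pf_prod T (fun p hp => hP p (hTP hp))]
        exact Nat.primeFactors_mono hfT (hpos T hTP).ne'
      have hsq : Squarefree (∏ p ∈ T, p) := by
        rw [Nat.squarefree_iff_prime_squarefree]
        intro p hp h
        have h5 : (∏ q ∈ T, q).factorization p ≤ 1 := by
          rw [Nat.factorization_prod (fun q hq => (hP q (hTP hq)).ne_zero)]
          rw [Finsupp.finsetSum_apply]
          calc ∑ q ∈ T, q.factorization p ≤ ∑ q ∈ T, if q = p then 1 else 0 := by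
                apply sum_le_sum
                intro q hq
                rw [(hP q (hTP hq)).factorization]
                rw [Finsupp.single_apply]
            _ ≤ 1 := by
                rw [sum_ite_eq']
                split_ifs <;> omega
        have h6 : 2 ≤ (∏ q ∈ T, q).factorization p := by
          rw [← hp.pow_dvd_iff_le_factorization (hpos T hTP).ne', sq]
          exact h
        omega
      have hff : ∏ p ∈ f.primeFactors, p = f :=
        Nat.prod_primeFactors_of_squarefree (hsq.squarefree_of_dvd hfT)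
      have hBf : ∀ k : ℤ, (ro F k f : ℝ) ≤ B := by
        intro k
        have h5 := hB f.primeFactors (hsub.trans hTP) (by rw [hff]; exact hf.2) k
        rwa [hff] at h5
      have h3 : |lam f| ≤ L * ((1 + Real.log D) / f) := by
        calc |lam f| ≤ ∑ T ∈ S f, |c T / ((∏ p ∈ T, p : ℕ) : ℝ)| := abs_sum_le_sum_abs _ _
          _ ≤ ∑ T ∈ S f, L * (1 / ((∏ p ∈ T, p : ℕ) : ℝ)) := by
              apply sum_le_sum
              intro T _
              rw [abs_div, Nat.abs_cast, div_eq_mul_one_div]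
              exact mul_le_mul_of_nonneg_right (hL T) (by positivity)
          _ = L * ∑ T ∈ S f, (1 / ((∏ p ∈ T, p : ℕ) : ℝ)) := by rw [mul_sum]
          _ ≤ _ := mul_le_mul_of_nonneg_left (tail_le P hP D f hf.1) hL0
      calc ∑ b ∈ (range f).filter (fun b => b.Coprime f), ‖G f b‖ ^ 2
          ≤ ∑ b ∈ range f, ‖G f b‖ ^ 2 :=
            sum_le_sum_of_subset_of_nonneg (filter_subset _ _) (fun _ _ _ => by positivity)
        _ = |lam f| ^ 2 * ∑ b ∈ range f, ‖TT F X f b‖ ^ 2 := by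
            rw [mul_sum]
            apply sum_congr rfl
            intro b _
            simp only [hG]
            rw [norm_mul, mul_pow, Complex.norm_real, Real.norm_eq_abs]
        _ ≤ (L * ((1 + Real.log D) / f)) ^ 2 * (2 * (B + 1) * X * f) := by
            apply mul_le_mul
            · exact pow_le_pow_left₀ (abs_nonneg _) h3 2
            · exact TT_sq F X f hf.1 B hBf
            · exact sum_nonneg fun _ _ => by positivity
            · positivity
        _ = _ := by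
            field_simp
  calc ∑ f ∈ Icc 1 D, ∑ b ∈ (range f).filter (fun b => b.Coprime f), ‖G f b‖ ^ 2
      ≤ ∑ f ∈ Icc 1 D, 2 * L ^ 2 * (1 + Real.log D) ^ 2 * (B + 1) * X * (1 / (f : ℝ)) :=
        sum_le_sum h2
    _ = 2 * L ^ 2 * (1 + Real.log D) ^ 2 * (B + 1) * X * ∑ f ∈ Icc 1 D, 1 / (f : ℝ) := by
        rw [mul_sum]
    _ ≤ 2 * L ^ 2 * (1 + Real.log D) ^ 2 * (B + 1) * X * (1 + Real.log D) := by
        apply mul_le_mul_of_nonneg_left (harm_le D) (by positivity)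
    _ = _ := by ring

end Pool.Agent.Y882.PX
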