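import Mathlib

/-! A power of a sum and the elementary symmetric functions. -/

set_option autoImplicit false

namespace Pool.Agent.Y882.PX

open Finset

theorem esym_rec (P : Finset ℕ) (g : ℕ → ℝ) (j : ℕ) :
    (∑ p ∈ P, g p) * ∑ T ∈ P.powersetCard j, ∏ p ∈ T, g p =
      ((j : ℝ) + 1) * (∑ T ∈ P.powersetCard (j + 1), ∏ p ∈ T, g p) +
      ∑ T ∈ P.powersetCard j, (∑ p ∈ T, g p) * ∏ p ∈ T, g p := by
  classical
  have h1 : ∑ T ∈ P.powersetCard j, ∑ p ∈ P \ T, g p * ∏ q ∈ T, g q =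
      ∑ U ∈ P.powersetCard (j + 1), ∑ p ∈ U, ∏ q ∈ U, g q := by
    rw [sum_sigma', sum_sigma']
    apply sum_nbij' (i := fun x : (Σ _ : Finset ℕ, ℕ) => (⟨insert x.2 x.1, x.2⟩ : Σ _ : Finset ℕ, ℕ))
      (j := fun x : (Σ _ : Finset ℕ, ℕ) => (⟨x.1.erase x.2, x.2⟩ : Σ _ : Finset ℕ, ℕ))
    · rintro ⟨T, p⟩ hx
      rw [mem_sigma, mem_powersetCard, mem_sdiff] at hx
      rw [mem_sigma, mem_powersetCard]
      obtain ⟨⟨h1, h2⟩, h3, h4⟩ := hx
      refine ⟨⟨?_, ?_⟩, mem_insert_self _ _⟩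
      · exact insert_subset h3 h1
      · simp only at h4 h2 ⊢
        rw [card_insert_of_notMem h4, h2]
    · rintro ⟨T, p⟩ hx
      rw [mem_sigma, mem_powersetCard] at hx
      rw [mem_sigma, mem_powersetCard, mem_sdiff]
      obtain ⟨⟨h1, h2⟩, h3⟩ := hx
      refine ⟨⟨(erase_subset _ _).trans h1, ?_⟩, h1 h3, notMem_erase _ _⟩
      simp only at h3 h2 ⊢
      rw [card_erase_of_mem h3, h2]
      omega
    · rintro ⟨T, p⟩ hx
      rw [mem_sigma, mem_powersetCard, mem_sdiff] at hx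
      simp only at hx ⊢
      rw [erase_insert hx.2.2]
    · rintro ⟨T, p⟩ hx
      rw [mem_sigma, mem_powersetCard] at hx
      simp only at hx ⊢
      rw [insert_erase hx.2]
    · rintro ⟨T, p⟩ hx
      rw [mem_sigma, mem_powersetCard, mem_sdiff] at hx
      simp only at hx ⊢
      rw [prod_insert hx.2.2]
  have h2 : ∑ U ∈ P.powersetCard (j + 1), ∑ p ∈ U, ∏ q ∈ U, g q =
      ((j : ℝ) + 1) * ∑ T ∈ P.powersetCard (j + 1), ∏ p ∈ T, g p := by
    rw [mul_sum]
    apply sum_congr rfl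
    intro U hU
    rw [sum_const, (mem_powersetCard.1 hU).2, nsmul_eq_mul]
    push_cast
    ring
  rw [← h2, ← h1, mul_sum, ← sum_add_distrib]
  apply sum_congr rfl
  intro T hT
  rw [← sum_mul, ← add_mul]
  congr 1
  rw [sum_sdiff_eq_sub (mem_powersetCard.1 hT).1]
  ring

theorem esym_abs (P : Finset ℕ) (g : ℕ → ℝ) (G0 : ℝ) (hG : ∑ p ∈ P, |g p| ≤ G0) (j : ℕ) :
    ∑ T ∈ P.powersetCard j, ∏ p ∈ T, |g p| ≤ Real.exp G0 := by
  classical
  calc ∑ T ∈ P.powersetCard j, ∏ p ∈ T, |g p| ≤ ∑ T ∈ P.powerset, ∏ p ∈ T, |g p| := by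
        apply sum_le_sum_of_subset_of_nonneg
        · intro T hT
          rw [mem_powerset]
          exact (mem_powersetCard.1 hT).1
        · intro _ _ _
          exact prod_nonneg fun _ _ => abs_nonneg _
    _ = ∏ p ∈ P, (1 + |g p|) := by rw [prod_one_add]
    _ ≤ ∏ p ∈ P, Real.exp |g p| := by
        apply prod_le_prod
        · intro p _; positivity
        · intro p _
          linarith [Real.add_one_le_exp |g p|]
    _ = Real.exp (∑ p ∈ P, |g p|) := by rw [Real.exp_sum]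
    _ ≤ Real.exp G0 := Real.exp_le_exp.2 hG

/-- the power of a sum is the elementary symmetric function, if all terms are small -/
theorem esym_pow (G0 : ℝ) (m : ℕ) : ∃ C : ℝ, 0 ≤ C ∧ ∀ (P : Finset ℕ) (g : ℕ → ℝ) (δ : ℝ),
    0 ≤ δ → (∀ p ∈ P, |g p| ≤ δ) → ∑ p ∈ P, |g p| ≤ G0 →
    |(∑ p ∈ P, g p) ^ m - m.factorial * ∑ T ∈ P.powersetCard m, ∏ p ∈ T, g p| ≤ C * δ := by
  induction m with
  | zero =>
    refine ⟨0, le_rfl, fun P g δ hδ _ _ => ?_⟩
    simp
  | succ m ih =>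
    obtain ⟨C, hC, H⟩ := ih
    refine ⟨|G0| * C + m.factorial * (m * Real.exp G0), by positivity, fun P g δ hδ hg hG => ?_⟩
    have h1 := H P g δ hδ hg hG
    have h2 := esym_rec P g m
    set s := ∑ p ∈ P, g p with hs
    set e := ∑ T ∈ P.powersetCard m, ∏ p ∈ T, g p with he
    set e' := ∑ T ∈ P.powersetCard (m + 1), ∏ p ∈ T, g p with he'
    set r := ∑ T ∈ P.powersetCard m, (∑ p ∈ T, g p) * ∏ p ∈ T, g p with hr
    have hs1 : |s| ≤ |G0| := by
      refine ((abs_sum_le_sum_abs _ _).trans hG).trans (le_abs_self _)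
    have hr1 : |r| ≤ m * Real.exp G0 * δ := by
      calc |r| ≤ ∑ T ∈ P.powersetCard m, |(∑ p ∈ T, g p) * ∏ p ∈ T, g p| := abs_sum_le_sum_abs _ _
        _ ≤ ∑ T ∈ P.powersetCard m, (m * δ) * ∏ p ∈ T, |g p| := by
            apply sum_le_sum
            intro T hT
            rw [mem_powersetCard] at hT
            rw [abs_mul, abs_prod]
            apply mul_le_mul_of_nonneg_right _ (prod_nonneg fun _ _ => abs_nonneg _)
            calc |∑ p ∈ T, g p| ≤ ∑ p ∈ T, |g p| := abs_sum_le_sum_abs _ _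
              _ ≤ ∑ p ∈ T, δ := sum_le_sum fun p hp => hg p (hT.1 hp)
              _ = m * δ := by rw [sum_const, hT.2, nsmul_eq_mul]
        _ = (m * δ) * ∑ T ∈ P.powersetCard m, ∏ p ∈ T, |g p| := by rw [mul_sum]
        _ ≤ (m * δ) * Real.exp G0 :=
            mul_le_mul_of_nonneg_left (esym_abs P g G0 hG m) (by positivity)
        _ = _ := by ring
    have h3 : s ^ (m + 1) - ((m + 1).factorial : ℝ) * e' =
        s * (s ^ m - m.factorial * e) + m.factorial * r := by
      rw [Nat.factorial_succ]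
      push_cast
      have h4 : ((m : ℝ) + 1) * e' = s * e - r := by linarith
      calc s ^ (m + 1) - ((m : ℝ) + 1) * (m.factorial : ℝ) * e' =
          s ^ (m + 1) - (m.factorial : ℝ) * (((m : ℝ) + 1) * e') := by ring
        _ = _ := by rw [h4]; ring
    rw [h3]
    calc |s * (s ^ m - m.factorial * e) + m.factorial * r| ≤
        |s| * |s ^ m - m.factorial * e| + m.factorial * |r| := by
          refine (abs_add_le _ _).trans ?_
          rw [abs_mul, abs_mul, Nat.abs_cast]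
      _ ≤ |G0| * (C * δ) + m.factorial * (m * Real.exp G0 * δ) := by
          apply add_le_add
          · exact mul_le_mul hs1 h1 (abs_nonneg _) (abs_nonneg _)
          · exact mul_le_mul_of_nonneg_left hr1 (by positivity)
      _ = _ := by ring

end Pool.Agent.Y882.PX
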