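import Pool.Agent.H475R2.BH_SingAlg
import Pool.Agent.Helper112.MultLS

/-! Fourier expansion of the number of the solutions of polynomial congruences. -/

set_option autoImplicit false

namespace Pool.Agent.Y882.PX

open Finset Polynomial
open H343 (ex)
open Pool.Agent.H300R2.BH (rho)

/-- fractions with denominator `q`, in lowest terms -/
theorem sum_reduced (q : ℕ) (hq : 0 < q) (g : ℕ → ℂ) :
    ∑ b ∈ range q, g b = ∑ f ∈ q.divisors,
      ∑ b ∈ (range f).filter (fun b => b.Coprime f), g (b * (q / f)) := by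
  rw [sum_sigma']
  apply sum_nbij' (i := fun b => (⟨q / Nat.gcd b q, b / Nat.gcd b q⟩ : Σ _ : ℕ, ℕ))
    (j := fun x => x.2 * (q / x.1))
  · intro b hb
    rw [mem_range] at hb
    have hg : 0 < Nat.gcd b q := Nat.gcd_pos_of_pos_right _ hq
    rw [mem_sigma, Nat.mem_divisors, mem_filter, mem_range]
    refine ⟨⟨Nat.div_dvd_of_dvd (Nat.gcd_dvd_right _ _), by omega⟩, ?_, ?_⟩
    · exact Nat.div_lt_div_of_lt_of_dvd (Nat.gcd_dvd_right _ _) hb
    · exact Nat.coprime_div_gcd_div_gcd hg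
  · rintro ⟨f, b⟩ hx
    rw [mem_sigma, Nat.mem_divisors, mem_filter, mem_range] at hx
    obtain ⟨⟨⟨c, hc⟩, _⟩, hb, hbf⟩ := hx
    simp only at hc hb hbf
    have hf : 0 < f := by omega
    have hc0 : 0 < c := by
      rcases Nat.eq_zero_or_pos c with h | h
      · subst h; omega
      · exact h
    rw [mem_range]
    simp only
    rw [hc, Nat.mul_div_cancel_left c hf]
    exact Nat.mul_lt_mul_of_pos_right hb hc0
  · intro b hb
    simp only
    have hg : 0 < Nat.gcd b q := Nat.gcd_pos_of_pos_right _ hq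
    have h1 : q / (q / Nat.gcd b q) = Nat.gcd b q := Nat.div_div_self (Nat.gcd_dvd_right _ _) hq.ne'
    rw [h1]
    exact Nat.div_mul_cancel (Nat.gcd_dvd_left _ _)
  · rintro ⟨f, b⟩ hx
    rw [mem_sigma, Nat.mem_divisors, mem_filter, mem_range] at hx
    obtain ⟨⟨⟨c, hc⟩, _⟩, hb, hbf⟩ := hx
    simp only at hc hb hbf
    have hf : 0 < f := by omega
    have hc0 : 0 < c := by
      rcases Nat.eq_zero_or_pos c with h | h
      · subst h; omega
      · exact h
    have h1 : q / f = c := by rw [hc, Nat.mul_div_cancel_left c hf]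
    have h2 : Nat.gcd (b * c) q = c := by
      rw [hc, Nat.gcd_mul_right, hbf, one_mul]
    simp only
    rw [h1, h2]
    congr 1
    · rw [hc, Nat.mul_div_cancel _ hc0]
    · exact Nat.mul_div_cancel _ hc0
  · intro b hb
    simp only
    have h1 : q / (q / Nat.gcd b q) = Nat.gcd b q := Nat.div_div_self (Nat.gcd_dvd_right _ _) hq.ne'
    rw [h1, Nat.div_mul_cancel (Nat.gcd_dvd_left _ _)]

/-- exponential sum over `1, ..., X` -/
noncomputable def SS (F : ℤ[X]) (X q b : ℕ) : ℂ :=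
  ∑ n ∈ Icc 1 X, ex ((b : ℝ) * (F.eval (n : ℤ) : ℤ) / q)

/-- complete exponential sum -/
noncomputable def CS (F : ℤ[X]) (q b : ℕ) : ℂ :=
  ∑ n ∈ range q, ex ((b : ℝ) * (F.eval (n : ℤ) : ℤ) / q)

/-- the difference of the incomplete and the complete sum -/
noncomputable def TT (F : ℤ[X]) (X q b : ℕ) : ℂ := SS F X q b - (X : ℂ) / q * CS F q b

theorem ex_congr (q : ℕ) (hq : 0 < q) (a b : ℤ) (h : (q : ℤ) ∣ a - b) :
    ex ((a : ℝ) / q) = ex ((b : ℝ) / q) := by
  obtain ⟨c, hc⟩ := h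
  have hq0 : (q : ℝ) ≠ 0 := by positivity
  have h1 : (a : ℝ) / q = (b : ℝ) / q + c := by
    have : (a : ℝ) = b + q * c := by
      have : a = b + q * c := by linarith
      exact_mod_cast this
    rw [this]
    field_simp
  rw [h1, H343.Gauss.ex_add, H343.Gauss.ex_int, mul_one]

theorem ex_frac (f c : ℕ) (hf : 0 < f) (hc : 0 < c) (b : ℕ) (m : ℤ) :
    ex (((b * c : ℕ) : ℝ) * m / ((f * c : ℕ) : ℝ)) = ex ((b : ℝ) * m / f) := by
  congr 1
  have h1 : (f : ℝ) ≠ 0 := by positivity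
  have h2 : (c : ℝ) ≠ 0 := by positivity
  push_cast
  field_simp

theorem CS_frac (F : ℤ[X]) (f c : ℕ) (hf : 0 < f) (hc : 0 < c) (b : ℕ) :
    CS F (f * c) (b * c) = c * CS F f b := by
  unfold CS
  simp_rw [ex_frac f c hf hc b]
  induction c with
  | zero => omega
  | succ c ih =>
    rcases Nat.eq_zero_or_pos c with h | h
    · subst h; simp
    · have h1 : range (f * (c + 1)) = range (f * c) ∪ (range f).map (addLeftEmbedding (f * c)) := by
        rw [Nat.mul_succ, range_add_eq_union]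
      rw [h1, sum_union, ih h, sum_map]
      · push_cast
        rw [add_mul, one_mul]
        congr 1
        apply sum_congr rfl
        intro n _
        simp only [addLeftEmbedding_apply]
        have h2 := ex_congr f hf ((b : ℤ) * F.eval ((f * c + n : ℕ) : ℤ)) ((b : ℤ) * F.eval (n : ℤ)) (by
          rw [← mul_sub]
          apply Dvd.dvd.mul_left
          have h3 : ((f * c + n : ℕ) : ℤ) - (n : ℤ) ∣
            F.eval ((f * c + n : ℕ) : ℤ) - F.eval (n : ℤ) := sub_dvd_eval_sub _ _ _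
          refine dvd_trans ?_ h3
          push_cast
          exact ⟨c, by ring⟩)
        push_cast at h2 ⊢
        exact h2
      · rw [disjoint_left]
        intro x hx hx'
        rw [mem_range] at hx
        rw [mem_map] at hx'
        obtain ⟨y, hy, hxy⟩ := hx'
        simp only [addLeftEmbedding_apply] at hxy
        omega

theorem TT_frac (F : ℤ[X]) (X f c : ℕ) (hf : 0 < f) (hc : 0 < c) (b : ℕ) :
    TT F X (f * c) (b * c) = TT F X f b := by
  unfold TT
  rw [CS_frac F f c hf hc b]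
  congr 1
  · unfold SS
    simp_rw [ex_frac f c hf hc b]
  · have h1 : (f : ℂ) ≠ 0 := by exact_mod_cast hf.ne'
    have h2 : (c : ℂ) ≠ 0 := by exact_mod_cast hc.ne'
    push_cast
    field_simp

/-- number of `n ≤ X` with `q ∣ F(n) + k` -/
noncomputable def cnt (F : ℤ[X]) (k : ℤ) (q X : ℕ) : ℕ :=
  ((Icc 1 X).filter (fun n : ℕ => (q : ℤ) ∣ F.eval (n : ℤ) + k)).card

/-- number of solutions of `F(n) + k ≡ 0 mod q` -/
noncomputable def ro (F : ℤ[X]) (k : ℤ) (q : ℕ) : ℕ := rho (F + C k) q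

theorem ro_eq (F : ℤ[X]) (k : ℤ) (q : ℕ) :
    ro F k q = ((range q).filter (fun n : ℕ => (q : ℤ) ∣ F.eval (n : ℤ) + k)).card := by
  unfold ro rho
  simp

theorem cnt_four (F : ℤ[X]) (k : ℤ) (q X : ℕ) (hq : 0 < q) :
    (cnt F k q X : ℂ) = 1 / q * ∑ b ∈ range q, ex ((b : ℝ) * k / q) * SS F X q b := by
  have hqC : (q : ℂ) ≠ 0 := by exact_mod_cast hq.ne'
  unfold SS cnt
  simp_rw [mul_sum]
  rw [sum_comm, card_filter]
  push_cast
  have h1 : ∀ n ∈ Icc 1 X, ∑ b ∈ range q, ex ((b : ℝ) * k / q) *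
      ex ((b : ℝ) * (F.eval (n : ℤ) : ℤ) / q) = if (q : ℤ) ∣ F.eval (n : ℤ) + k then (q : ℂ) else 0 := by
    intro n _
    rw [← H336V.RamanAux.geom q hq]
    apply sum_congr rfl
    intro b _
    rw [← H343.Gauss.ex_add]
    congr 1
    push_cast
    ring
  apply sum_congr rfl
  intro n hn
  rw [← mul_sum, h1 n hn]
  split_ifs
  · field_simp
  · simp

theorem ro_four (F : ℤ[X]) (k : ℤ) (q : ℕ) (hq : 0 < q) :
    (ro F k q : ℂ) = 1 / q * ∑ b ∈ range q, ex ((b : ℝ) * k / q) * CS F q b := by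
  have hqC : (q : ℂ) ≠ 0 := by exact_mod_cast hq.ne'
  rw [ro_eq]
  unfold CS
  simp_rw [mul_sum]
  rw [sum_comm, card_filter]
  push_cast
  have h1 : ∀ n ∈ range q, ∑ b ∈ range q, ex ((b : ℝ) * k / q) *
      ex ((b : ℝ) * (F.eval (n : ℤ) : ℤ) / q) = if (q : ℤ) ∣ F.eval (n : ℤ) + k then (q : ℂ) else 0 := by
    intro n _
    rw [← H336V.RamanAux.geom q hq]
    apply sum_congr rfl
    intro b _
    rw [← H343.Gauss.ex_add]
    congr 1
    push_cast
    ring
  apply sum_congr rfl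
  intro n hn
  rw [← mul_sum, h1 n hn]
  split_ifs
  · field_simp
  · simp

/-- the error term -/
noncomputable def rr (F : ℤ[X]) (k : ℤ) (q X : ℕ) : ℝ := (cnt F k q X : ℝ) - (X : ℝ) / q * ro F k q

theorem rr_four (F : ℤ[X]) (k : ℤ) (q X : ℕ) (hq : 0 < q) :
    (rr F k q X : ℂ) = 1 / q * ∑ f ∈ q.divisors, ∑ b ∈ (range f).filter (fun b => b.Coprime f),
      ex ((b : ℝ) * k / f) * TT F X f b := by
  have h1 : (rr F k q X : ℂ) = 1 / q * ∑ b ∈ range q, ex ((b : ℝ) * k / q) * TT F X q b := by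
    unfold rr TT
    push_cast
    rw [cnt_four F k q X hq, ro_four F k q hq, mul_sum, mul_sum, mul_sum, mul_sum,
      ← sum_sub_distrib]
    apply sum_congr rfl
    intro b _
    ring
  rw [h1, sum_reduced q hq (fun b => ex ((b : ℝ) * k / q) * TT F X q b)]
  congr 1
  apply sum_congr rfl
  intro f hf
  rw [Nat.mem_divisors] at hf
  obtain ⟨⟨c, hc⟩, _⟩ := hf
  have hf0 : 0 < f := Nat.pos_of_ne_zero (by rintro rfl; simp at hc; omega)
  have hc0 : 0 < c := Nat.pos_of_ne_zero (by rintro rfl; simp at hc; omega)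
  apply sum_congr rfl
  intro b _
  rw [hc, Nat.mul_div_cancel_left c hf0, TT_frac F X f c hf0 hc0, ex_frac f c hf0 hc0]

theorem TT_one (F : ℤ[X]) (X : ℕ) : TT F X 1 0 = 0 := by
  unfold TT SS CS
  simp [H343.Gauss.ex_zero]

/-- the primitive part of the number of solutions -/
noncomputable def PP (F : ℤ[X]) (k : ℤ) (f : ℕ) : ℂ :=
  1 / f * ∑ b ∈ (range f).filter (fun b => b.Coprime f), ex ((b : ℝ) * k / f) * CS F f b

theorem ro_PP (F : ℤ[X]) (k : ℤ) (q : ℕ) (hq : 0 < q) :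
    (ro F k q : ℂ) = ∑ f ∈ q.divisors, PP F k f := by
  rw [ro_four F k q hq, sum_reduced q hq (fun b => ex ((b : ℝ) * k / q) * CS F q b), mul_sum]
  apply sum_congr rfl
  intro f hf
  rw [Nat.mem_divisors] at hf
  obtain ⟨⟨c, hc⟩, _⟩ := hf
  have hf0 : 0 < f := Nat.pos_of_ne_zero (by rintro rfl; simp at hc; omega)
  have hc0 : 0 < c := Nat.pos_of_ne_zero (by rintro rfl; simp at hc; omega)
  have h1 : (f : ℂ) ≠ 0 := by exact_mod_cast hf0.ne'
  have h2 : (c : ℂ) ≠ 0 := by exact_mod_cast hc0.ne'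
  unfold PP
  rw [mul_sum, mul_sum]
  apply sum_congr rfl
  intro b _
  rw [hc, Nat.mul_div_cancel_left c hf0, CS_frac F f c hf0 hc0, ex_frac f c hf0 hc0]
  push_cast
  field_simp

end Pool.Agent.Y882.PX
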