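import Pool.Agent.Y882.PX.ErrX

/-! Elementary symmetric functions of the local deviations, and their mean squares. -/

set_option autoImplicit false

namespace Pool.Agent.Y882.PX

open Finset Polynomial
open H343 (ex)

theorem sqf_prod (T : Finset ℕ) (hT : ∀ p ∈ T, p.Prime) : Squarefree (∏ p ∈ T, p) := by
  classical
  have hpos : 0 < ∏ p ∈ T, p :=
    Nat.pos_of_ne_zero (prod_ne_zero_iff.2 fun p hp => (hT p hp).ne_zero)
  rw [Nat.squarefree_iff_prime_squarefree]
  intro p hp h
  have h5 : (∏ q ∈ T, q).factorization p ≤ 1 := by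
    rw [Nat.factorization_prod (fun q hq => (hT q hq).ne_zero)]
    rw [Finsupp.finsetSum_apply]
    calc ∑ q ∈ T, q.factorization p ≤ ∑ q ∈ T, if q = p then 1 else 0 := by
          apply sum_le_sum
          intro q hq
          rw [(hT q hq).factorization]
          rw [Finsupp.single_apply]
      _ ≤ 1 := by
          rw [sum_ite_eq']
          split_ifs <;> omega
  have h6 : 2 ≤ (∏ q ∈ T, q).factorization p := by
    rw [← hp.pow_dvd_iff_le_factorization hpos.ne', sq]
    exact h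
  omega

theorem sum_div_prod (T : Finset ℕ) (hT : ∀ p ∈ T, p.Prime) (g : ℕ → ℂ) :
    ∑ f ∈ (∏ p ∈ T, p).divisors, g f = ∑ U ∈ T.powerset, g (∏ p ∈ U, p) := by
  classical
  have hpos : 0 < ∏ p ∈ T, p :=
    Nat.pos_of_ne_zero (prod_ne_zero_iff.2 fun p hp => (hT p hp).ne_zero)
  apply sum_nbij' (i := fun f => f.primeFactors) (j := fun U => ∏ p ∈ U, p)
  · intro f hf
    rw [Nat.mem_divisors] at hf
    rw [mem_powerset, ← pf_prod T hT]
    exact Nat.primeFactors_mono hf.1 hf.2
  · intro U hU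
    rw [mem_powerset] at hU
    rw [Nat.mem_divisors]
    exact ⟨prod_dvd_prod_of_subset _ _ _ hU, hpos.ne'⟩
  · intro f hf
    rw [Nat.mem_divisors] at hf
    exact Nat.prod_primeFactors_of_squarefree ((sqf_prod T hT).squarefree_of_dvd hf.1)
  · intro U hU
    rw [mem_powerset] at hU
    exact pf_prod U (fun p hp => hT p (hU hp))
  · intro f hf
    rw [Nat.mem_divisors] at hf
    rw [Nat.prod_primeFactors_of_squarefree ((sqf_prod T hT).squarefree_of_dvd hf.1)]

/-- the primitive part is the product of the local deviations -/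
theorem PP_prod (F : ℤ[X]) (k : ℤ) (T : Finset ℕ) (hT : ∀ p ∈ T, p.Prime) :
    PP F k (∏ p ∈ T, p) = ∏ p ∈ T, ((ro F k p : ℂ) - 1) := by
  classical
  induction T using Finset.strongInduction with
  | H T ih =>
    have hpos : 0 < ∏ p ∈ T, p :=
      Nat.pos_of_ne_zero (prod_ne_zero_iff.2 fun p hp => (hT p hp).ne_zero)
    have h1 := ro_PP F k (∏ p ∈ T, p) hpos
    rw [sum_div_prod T hT] at h1
    have h2 : ((ro F k (∏ p ∈ T, p) : ℕ) : ℂ) =
        ∑ U ∈ T.powerset, ∏ p ∈ U, ((ro F k p : ℂ) - 1) := by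
      rw [ro_prod F k T hT]
      push_cast
      rw [← prod_one_add]
      apply prod_congr rfl
      intro p _
      ring
    rw [h2] at h1
    have h3 : T ∈ T.powerset := mem_powerset_self T
    rw [← add_sum_erase _ _ h3, ← add_sum_erase _ _ h3] at h1
    have h4 : ∑ U ∈ T.powerset.erase T, PP F k (∏ p ∈ U, p) =
        ∑ U ∈ T.powerset.erase T, ∏ p ∈ U, ((ro F k p : ℂ) - 1) := by
      apply sum_congr rfl
      intro U hU
      rw [mem_erase, mem_powerset] at hU
      apply ih U (Finset.ssubset_iff_subset_ne.2 ⟨hU.2, hU.1⟩)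
      intro p hp
      exact hT p (hU.2 hp)
    rw [h4] at h1
    exact (add_right_cancel h1).symm

/-- elementary symmetric function of the local deviations -/
noncomputable def EE (F : ℤ[X]) (P : Finset ℕ) (m : ℕ) (k : ℤ) : ℝ :=
  ∑ T ∈ P.powersetCard m, ∏ p ∈ T, (((ro F k p : ℝ) - 1) / p)

theorem EE_sq (F : ℤ[X]) (P : Finset ℕ) (hP : ∀ p ∈ P, p.Prime) (m D Q : ℕ) (B : ℝ) (hQ : 1 ≤ Q)
    (hB0 : 0 ≤ B) (hB : ∀ T ∈ P.powersetCard m, ∀ k : ℤ, (ro F k (∏ p ∈ T, p) : ℝ) ≤ B)
    (hD : ∀ T ∈ P.powersetCard m, ∏ p ∈ T, p ≤ D) (hQ' : ∀ T ∈ P.powersetCard m, Q ≤ ∏ p ∈ T, p)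
    (H : ℕ) :
    ∑ k ∈ Icc (-(H : ℤ)) H, EE F P m k ^ 2 ≤ 6 * (2 * H + 1 + (D : ℝ) ^ 2) * (B * (2 / Q)) := by
  classical
  set R : Finset ℕ := (P.powersetCard m).image (fun T => ∏ p ∈ T, p) with hR
  set G : ℕ → ℕ → ℂ := fun f b => if f ∈ R then CS F f b / (f : ℂ) ^ 2 else 0 with hG
  have hpos : ∀ T ⊆ P, 0 < ∏ p ∈ T, p := fun T hT =>
    Nat.pos_of_ne_zero (prod_ne_zero_iff.2 fun p hp => (hP p (hT hp)).ne_zero)
  have hinj : ∀ T ∈ P.powersetCard m, ∀ U ∈ P.powersetCard m,
      ∏ p ∈ T, p = ∏ p ∈ U, p → T = U := by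
    intro T hT U hU h
    rw [mem_powersetCard] at hT hU
    rw [← pf_prod T (fun p hp => hP p (hT.1 hp)), ← pf_prod U (fun p hp => hP p (hU.1 hp)), h]
  have hRD : R ⊆ Icc 1 D := by
    intro f hf
    rw [hR, mem_image] at hf
    obtain ⟨T, hT, rfl⟩ := hf
    rw [mem_Icc]
    exact ⟨hpos T (mem_powersetCard.1 hT).1, hD T hT⟩
  have key : ∀ k : ℤ, ((EE F P m k : ℝ) : ℂ) =
      ∑ f ∈ Icc 1 D, ∑ b ∈ (range f).filter (fun b => b.Coprime f),
        ex ((b : ℝ) * k / f) * G f b := by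
    intro k
    have h1 : ∑ f ∈ Icc 1 D, ∑ b ∈ (range f).filter (fun b => b.Coprime f),
        ex ((b : ℝ) * k / f) * G f b = ∑ f ∈ R, PP F k f / f := by
      rw [← sum_subset hRD]
      · apply sum_congr rfl
        intro f hf
        unfold PP
        rw [mul_sum, sum_div]
        apply sum_congr rfl
        intro b _
        simp only [hG, if_pos hf]
        have : (f : ℂ) ≠ 0 := by
          have := (mem_Icc.1 (hRD hf)).1
          exact_mod_cast (by omega : f ≠ 0)
        field_simp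
      · intro f _ hf
        apply sum_eq_zero
        intro b _
        simp only [hG, if_neg hf, mul_zero]
    rw [h1, hR, sum_image hinj]
    unfold EE
    rw [Complex.ofReal_sum]
    apply sum_congr rfl
    intro T hT
    rw [PP_prod F k T (fun p hp => hP p ((mem_powersetCard.1 hT).1 hp))]
    push_cast
    rw [prod_div_distrib]
  have h1 : ∑ k ∈ Icc (-(H : ℤ)) H, EE F P m k ^ 2 =
      ∑ k ∈ Icc (-(H : ℤ)) H, ‖∑ f ∈ Icc 1 D, ∑ b ∈ (range f).filter (fun b => b.Coprime f),
        ex ((b : ℝ) * k / f) * G f b‖ ^ 2 := by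
    apply sum_congr rfl
    intro k _
    rw [← key k, Complex.norm_real, Real.norm_eq_abs, sq_abs]
  rw [h1]
  refine (dual_int H D G).trans ?_
  apply mul_le_mul_of_nonneg_left _ (by positivity)
  have h2 : ∑ f ∈ Icc 1 D, ∑ b ∈ (range f).filter (fun b => b.Coprime f), ‖G f b‖ ^ 2 =
      ∑ f ∈ R, ∑ b ∈ (range f).filter (fun b => b.Coprime f), ‖CS F f b‖ ^ 2 / (f : ℝ) ^ 4 := by
    rw [← sum_subset hRD]
    · apply sum_congr rfl
      intro f hf
      apply sum_congr rfl
      intro b _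
      simp only [hG, if_pos hf]
      rw [norm_div, div_pow, norm_pow, Complex.norm_natCast, ← pow_mul]
    · intro f _ hf
      apply sum_eq_zero
      intro b _
      simp only [hG, if_neg hf]
      simp
  rw [h2]
  calc ∑ f ∈ R, ∑ b ∈ (range f).filter (fun b => b.Coprime f), ‖CS F f b‖ ^ 2 / (f : ℝ) ^ 4
      ≤ ∑ f ∈ R, B * ((f : ℝ) ^ 2)⁻¹ := by
        apply sum_le_sum
        intro f hf
        have hf1 := (mem_Icc.1 (hRD hf)).1
        have hf0 : (0 : ℝ) < f := by exact_mod_cast hf1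
        have hBf : ∀ k : ℤ, (ro F k f : ℝ) ≤ B := by
          intro k
          rw [hR, mem_image] at hf
          obtain ⟨T, hT, rfl⟩ := hf
          exact hB T hT k
        rw [← sum_div]
        have h3 : ∑ b ∈ (range f).filter (fun b => b.Coprime f), ‖CS F f b‖ ^ 2 ≤
            B * (f : ℝ) ^ 2 :=
          (sum_le_sum_of_subset_of_nonneg (filter_subset _ _)
            (fun _ _ _ => by positivity)).trans (CS_sq F f hf1 B hBf)
        rw [div_le_iff₀ (by positivity)]
        refine h3.trans (le_of_eq ?_)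
        field_simp
    _ = B * ∑ f ∈ R, ((f : ℝ) ^ 2)⁻¹ := by rw [mul_sum]
    _ ≤ B * (2 / Q) := by
        apply mul_le_mul_of_nonneg_left _ hB0
        have h4 : R ⊆ Ioo (Q - 1) (D + 1) := by
          intro f hf
          have h5 := (mem_Icc.1 (hRD hf)).2
          rw [hR, mem_image] at hf
          obtain ⟨T, hT, hf⟩ := hf
          have h6 := hQ' T hT
          rw [mem_Ioo]
          omega
        refine (sum_le_sum_of_subset_of_nonneg h4 (fun _ _ _ => by positivity)).trans ?_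
        have h5 := sum_Ioo_inv_sq_le (α := ℝ) (Q - 1) (D + 1)
        refine h5.trans (le_of_eq ?_)
        congr 1
        have : ((Q - 1 : ℕ) : ℝ) = (Q : ℝ) - 1 := by
          push_cast [Nat.cast_sub hQ]
          ring
        rw [this]
        ring

end Pool.Agent.Y882.PX
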